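import Pool.Agent.H899R2.VP.Sub
import Pool.Agent.H330.Ramsey

set_option autoImplicit false

/-! Graphs without infinite clique subdivision: finite modifications and independent triples. -/

namespace Pool.Agent.TH425.FF

open Set
open Pool.Agent.H899R2.VP (HasCliqueSubdivision hasCliqueSubdivision)

/-- `x` and `y` are not separated by a finite set. -/
def Insep (G : SimpleGraph ℕ) (x y : ℕ) : Prop := ∀ F : Set ℕ, F.Finite → x ∉ F → y ∉ F →
  ∃ w : G.Walk x y, ∀ z ∈ w.support, z ∉ F

theorem Insep.symm {G : SimpleGraph ℕ} {x y : ℕ} (h : Insep G x y) : Insep G y x := by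
  intro F hF hy hx
  obtain ⟨w, hw⟩ := h F hF hx hy
  exact ⟨w.reverse, fun z hz => hw z (by simpa using hz)⟩

theorem insep_adj {G : SimpleGraph ℕ} {x y : ℕ} (h : G.Adj x y) : Insep G x y := by
  intro F _ hx hy
  refine ⟨SimpleGraph.Walk.cons h SimpleGraph.Walk.nil, ?_⟩
  intro z hz
  simp only [SimpleGraph.Walk.support_cons, SimpleGraph.Walk.support_nil, List.mem_cons,
    List.not_mem_nil, or_false] at hz
  rcases hz with rfl | rfl
  · exact hx
  · exact hy

theorem insep_common {G : SimpleGraph ℕ} {x y : ℕ} (h : {z | G.Adj z x ∧ G.Adj z y}.Infinite) :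
    Insep G x y := by
  intro F hF hx hy
  obtain ⟨z, ⟨h1, h2⟩, hz⟩ := h.exists_notMem_finite hF
  refine ⟨SimpleGraph.Walk.cons h1.symm (SimpleGraph.Walk.cons h2 SimpleGraph.Walk.nil), ?_⟩
  intro u hu
  simp only [SimpleGraph.Walk.support_cons, SimpleGraph.Walk.support_nil, List.mem_cons,
    List.not_mem_nil, or_false] at hu
  rcases hu with rfl | rfl | rfl
  · exact hx
  · exact hz
  · exact hy

/-- The branch vertices of a subdivision of the infinite clique are pairwise inseparable. -/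
theorem insep_of_sub {G : SimpleGraph ℕ} (h : HasCliqueSubdivision G) :
    ∃ X : Set ℕ, X.Infinite ∧ ∀ x ∈ X, ∀ y ∈ X, x ≠ y → Insep G x y := by
  obtain ⟨v, hv, P, -, h2, h3⟩ := h
  refine ⟨range v, Set.infinite_range_of_injective hv, ?_⟩
  rintro _ ⟨i, rfl⟩ _ ⟨j, rfl⟩ _ F hF hi hj
  have hbad : ∀ i, v i ∉ F → {k | i < k ∧ ∃ z ∈ F, z ∈ (P i k).support}.Finite := by
    intro i hi
    have h4 : {k | i < k ∧ ∃ z ∈ F, z ∈ (P i k).support} ⊆
        ⋃ z ∈ F, {k | i < k ∧ z ∈ (P i k).support} := by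
      rintro k ⟨h5, z, h6, h7⟩
      exact Set.mem_iUnion₂.2 ⟨z, h6, h5, h7⟩
    refine Set.Finite.subset (hF.biUnion fun z hz => ?_) h4
    refine Set.Subsingleton.finite ?_
    rintro k ⟨h5, h6⟩ k' ⟨h5', h6'⟩
    by_contra hne
    obtain ⟨l, hl⟩ := h3 i k i k' h5 h5' (by simpa using hne) z h6 h6'
    have h7 := h2 i k l h5 (hl ▸ h6)
    have h8 := h2 i k' l h5' (hl ▸ h6')
    have hli : l ≠ i := by
      rintro rfl
      exact hi (hl ▸ hz)
    have e1 : l = k := h7.resolve_left hli
    have e2 : l = k' := h8.resolve_left hli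
    exact hne (e1.symm.trans e2)
  have hfin := ((hbad i hi).union (hbad j hj)).union (Set.finite_Iic (max i j))
  obtain ⟨k, hk⟩ := hfin.exists_notMem
  simp only [Set.mem_union, not_or, Set.mem_Iic, not_le] at hk
  obtain ⟨⟨hk1, hk2⟩, hk3⟩ := hk
  have hik : i < k := lt_of_le_of_lt (le_max_left _ _) hk3
  have hjk : j < k := lt_of_le_of_lt (le_max_right _ _) hk3
  refine ⟨(P i k).append (P j k).reverse, ?_⟩
  intro z hz hzF
  rw [SimpleGraph.Walk.mem_support_append_iff] at hz
  rcases hz with hz | hz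
  · exact hk1 ⟨hik, z, hzF, hz⟩
  · rw [SimpleGraph.Walk.support_reverse, List.mem_reverse] at hz
    exact hk2 ⟨hjk, z, hzF, hz⟩

theorem walk_transfer {G S : SimpleGraph ℕ} {F0 : Set ℕ}
    (h : ∀ u v, u ∉ F0 → v ∉ F0 → G.Adj u v → S.Adj u v) {x y : ℕ} (w : G.Walk x y) :
    (∀ z ∈ w.support, z ∉ F0) → ∃ w' : S.Walk x y, w'.support = w.support := by
  induction w with
  | nil => exact fun _ => ⟨SimpleGraph.Walk.nil, rfl⟩
  | cons hadj w ih =>
    intro hz
    obtain ⟨w', hw'⟩ := ih fun z hz' => hz z (by simp [hz'])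
    refine ⟨SimpleGraph.Walk.cons (h _ _ (hz _ (by simp)) (hz _ (by simp)) hadj) w', ?_⟩
    simp [hw']

/-- Adding finitely many vertices does not create a subdivision of the infinite clique. -/
theorem apex {G S : SimpleGraph ℕ} (F0 : Set ℕ) (hF : F0.Finite)
    (h : ∀ u v, u ∉ F0 → v ∉ F0 → G.Adj u v → S.Adj u v) (hS : ¬ HasCliqueSubdivision S) :
    ¬ HasCliqueSubdivision G := by
  intro hG
  obtain ⟨X, hX, hI⟩ := insep_of_sub hG
  apply hS
  refine hasCliqueSubdivision S (X \ F0) (hX.sdiff hF) ?_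
  rintro x ⟨hx, hxF⟩ y ⟨hy, hyF⟩ hne F hFf hxF' hyF'
  obtain ⟨w, hw⟩ := hI x hx y hy hne (F ∪ F0) (hFf.union hF) (by simp [hxF, hxF'])
    (by simp [hyF, hyF'])
  obtain ⟨w', hw'⟩ := walk_transfer h w fun z hz hz' => hw z hz (Or.inr hz')
  exact ⟨w', fun z hz hz' => hw z (hw' ▸ hz) (Or.inl hz')⟩

/-- Triples in given infinite sets, pairwise not adjacent, with finitely many common
neighbours. -/
theorem pick {k : ℕ} {S : SimpleGraph ℕ} (hS : ¬ HasCliqueSubdivision S) (P : Fin k → Set ℕ)
    (hP : ∀ j, (P j).Infinite) : ∃ A : Fin k → ℕ → ℕ, (∀ j m, A j m ∈ P j) ∧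
      (∀ j m j' m', m < 3 → m' < 3 → ¬ S.Adj (A j m) (A j' m')) ∧
      (∀ j m m', m < 3 → m' < 3 → m ≠ m' → A j m ≠ A j m' ∧
        {z | S.Adj z (A j m) ∧ S.Adj z (A j m')}.Finite) := by
  classical
  have hq : ∀ j, ∃ q : ℕ → ℕ, Function.Injective q ∧ ∀ n, q n ∈ P j := by
    intro j
    have hinf : Infinite (P j) := (hP j).to_subtype
    exact ⟨fun n => (Infinite.natEmbedding (P j) n).1, fun m n hmn =>
      (Infinite.natEmbedding (P j)).injective (Subtype.ext hmn), fun n => (Infinite.natEmbedding (P j) n).2⟩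
  choose q hq1 hq2 using hq
  let f : Finset ℕ → (Fin k → Prop) × (Fin k → Fin k → Prop) := fun s =>
    (fun j => ∃ m ∈ s, ∃ n ∈ s, m < n ∧ Insep S (q j m) (q j n),
      fun j j' => ∃ m ∈ s, ∃ n ∈ s, m < n ∧ S.Adj (q j m) (q j' n))
  obtain ⟨H, c, hH, hc⟩ := Pool.Agent.H330.infinite_ramsey 2 f
  have hpair : ∀ m ∈ H, ∀ n ∈ H, m < n → (∀ j, c.1 j ↔ Insep S (q j m) (q j n)) ∧
      (∀ j j', c.2 j j' ↔ S.Adj (q j m) (q j' n)) := by
    intro m hm n hn hmn
    have h1 := hc {m, n} (Finset.card_pair hmn.ne) (by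
      intro z hz
      simp only [Finset.coe_insert, Finset.coe_singleton, Set.mem_insert_iff,
        Set.mem_singleton_iff] at hz
      rcases hz with rfl | rfl
      · exact hm
      · exact hn)
    have key : ∀ R : ℕ → ℕ → Prop, (∃ m' ∈ ({m, n} : Finset ℕ), ∃ n' ∈ ({m, n} : Finset ℕ),
        m' < n' ∧ R m' n') ↔ R m n := by
      intro R
      constructor
      · rintro ⟨m', hm', n', hn', hlt, hR⟩
        simp only [Finset.mem_insert, Finset.mem_singleton] at hm' hn'
        rcases hm' with rfl | rfl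
        · rcases hn' with rfl | rfl
          · exact absurd hlt (lt_irrefl _)
          · exact hR
        · rcases hn' with rfl | rfl
          · exact absurd hlt (lt_asymm hmn)
          · exact absurd hlt (lt_irrefl _)
      · intro hR
        exact ⟨m, by simp, n, by simp, hmn, hR⟩
    constructor
    · intro j
      rw [← h1]
      exact key fun m n => Insep S (q j m) (q j n)
    · intro j j'
      rw [← h1]
      exact key fun m n => S.Adj (q j m) (q j' n)
  -- enumeration of `H`
  have hinf : Infinite H := hH.to_subtype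
  let e : ℕ → ℕ := Nat.orderEmbeddingOfSet H
  have hem : StrictMono e := (Nat.orderEmbeddingOfSet H).strictMono
  have her : ∀ n, e n ∈ H := by
    intro n
    have h := @Set.mem_range_self _ _ ↑(Nat.orderEmbeddingOfSet H) n
    rwa [Nat.orderEmbeddingOfSet_range H] at h
  have hc1 : ∀ j, ¬ c.1 j := by
    intro j hj
    apply hS
    refine hasCliqueSubdivision S (range fun n => q j (e n))
      (Set.infinite_range_of_injective ((hq1 j).comp hem.injective)) ?_
    have : ∀ x ∈ range (fun n => q j (e n)), ∀ y ∈ range (fun n => q j (e n)), x ≠ y →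
        Insep S x y := by
      rintro _ ⟨m, rfl⟩ _ ⟨n, rfl⟩ hne
      rcases lt_trichotomy m n with h | h | h
      · exact ((hpair _ (her m) _ (her n) (hem h)).1 j).1 hj
      · subst h
        exact absurd rfl hne
      · exact (((hpair _ (her n) _ (her m) (hem h)).1 j).1 hj).symm
    exact this
  have hc2 : ∀ j j', ¬ c.2 j j' := by
    intro j j' hjj
    apply hc1 j
    rw [(hpair _ (her 0) _ (her 1) (hem one_pos)).1 j]
    apply insep_common
    have h1 : (range fun n => q j' (e (n + 2))).Infinite :=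
      Set.infinite_range_of_injective ((hq1 j').comp
        (hem.injective.comp fun a b h => by simpa using h))
    refine h1.mono ?_
    rintro _ ⟨n, rfl⟩
    exact ⟨(((hpair _ (her 0) _ (her (n + 2)) (hem (by omega))).2 j j').1 hjj).symm,
      (((hpair _ (her 1) _ (her (n + 2)) (hem (by omega))).2 j j').1 hjj).symm⟩
  have hadj : ∀ j j' m n, m ≠ n → ¬ S.Adj (q j (e m)) (q j' (e n)) := by
    intro j j' m n hmn h
    rcases lt_or_gt_of_ne hmn with h1 | h1
    · exact hc2 j j' (((hpair _ (her m) _ (her n) (hem h1)).2 j j').2 h)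
    · exact hc2 j' j (((hpair _ (her n) _ (her m) (hem h1)).2 j' j).2 h.symm)
  have hins : ∀ j m n, m ≠ n → ¬ Insep S (q j (e m)) (q j (e n)) := by
    intro j m n hmn h
    rcases lt_or_gt_of_ne hmn with h1 | h1
    · exact hc1 j (((hpair _ (her m) _ (her n) (hem h1)).1 j).2 h)
    · exact hc1 j (((hpair _ (her n) _ (her m) (hem h1)).1 j).2 h.symm)
  refine ⟨fun j m => q j (e (3 * j.val + m)), fun j m => hq2 j _, ?_, ?_⟩
  · intro j m j' m' hm hm' h
    by_cases hE : 3 * j.val + m = 3 * j'.val + m'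
    · have h1 : j.val = j'.val := by omega
      have h2 : m = m' := by omega
      have h3 : j = j' := Fin.ext h1
      subst h2 h3
      exact h.ne rfl
    · exact hadj j j' _ _ hE h
  · intro j m m' hm hm' hne
    have hE : 3 * j.val + m ≠ 3 * j.val + m' := by omega
    constructor
    · intro h
      exact hE (hem.injective (hq1 j h))
    · by_contra hinf
      exact hins j _ _ hE (insep_common hinf)

end Pool.Agent.TH425.FF
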