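import Pool.Agent.TH425.FF.Iff
import Pool.Agent.W875.TS.COI

set_option autoImplicit false

/-! Countable unions of classes with Vaught's conjecture. -/

namespace Pool.Agent.TH425.FF

open Set
open MeasureTheory (AnalyticSet)
open Pool.Agent.H533R2.VO (RS RIso VC Dich)
open Pool.Agent.H533R2.VS

variable {a : ℕ → ℕ}

theorem riso_of_uiso {x y : US a} (h : UIso x y) : RIso x.1 y.1 := by
  obtain ⟨σ, h1, _⟩ := h
  exact ⟨σ, h1⟩

theorem cun_vcu (V : ℕ → RS a → Prop) (h1 : ∀ n, VCu (V n)) (h2 : ∀ n, Coan (V n))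
    (h3 : ∀ n, Inv (V n)) : VCu fun x => ∃ n, V n x := by
  intro B hB hinv hBV
  have b1 : BorelSpace ((i : ℕ) → (Fin (a i) → ℕ) → Bool) := inferInstance
  have b2 : BorelSpace (ℕ → ℕ → Bool) := inferInstance
  have s1 : SecondCountableTopology (US a) := inferInstance
  have b3 : BorelSpace (US a) := inferInstance
  have b5 : PolishSpace (US a) := polish_of'
  let A : ℕ → Set (US a) := fun n => B ∩ (fun y : US a => y.1) ⁻¹' {x : RS a | ¬ V n x}
  have hA : ∀ n, AnalyticSet (A n) := fun n =>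
    an_inter hB.analyticSet ((show AnalyticSet {x : RS a | ¬ V n x} from h2 n).preimage
      continuous_fst)
  have hAi : ∀ n x y, UIso x y → x ∈ A n → y ∈ A n := by
    intro n x y hxy hx
    exact ⟨(hinv x y hxy).1 hx.1, fun hy => hx.2 (h3 n _ _ (riso_of_uiso (uiso_symm hxy)) hy)⟩
  have hA0 : ⋂ n, A n = ∅ := by
    rw [eq_empty_iff_forall_notMem]
    intro y hy
    rw [mem_iInter] at hy
    obtain ⟨n, hn⟩ := hBV y (hy 0).1
    exact (hy n).2 hn
  obtain ⟨E, hE1, hE2, hE3⟩ := novikov A hA hA0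
  have hsat : ∀ n, ∃ D : Set (US a), MeasurableSet D ∧ (∀ x y, UIso x y → (x ∈ D ↔ y ∈ D)) ∧
      {y | ∃ x ∈ B \ E n, UIso x y} ⊆ D ∧ Disjoint D (A n) := by
    intro n
    refine t_PSEP t_SAT a _ (A n) (t_SAT a _ (hB.diff (hE1 n)).analyticSet) (hA n) ?_ (hAi n) ?_
    · rintro x y hxy ⟨w, hw, hwx⟩
      exact ⟨w, hw, uiso_trans hwx hxy⟩
    · rw [Set.disjoint_left]
      rintro y ⟨x, ⟨hx, hxE⟩, hxy⟩ hy
      exact hxE (hE2 n (hAi n _ _ (uiso_symm hxy) hy))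
  choose D hD1 hD2 hD3 hD4 using hsat
  have hu : ∀ n, UDich (B ∩ D n) := by
    intro n
    refine h1 n _ (hB.inter (hD1 n)) (fun x y hxy => and_congr (hinv x y hxy) (hD2 n x y hxy)) ?_
    rintro x ⟨hx, hxD⟩
    by_contra hc
    exact Set.disjoint_left.1 (hD4 n) hxD ⟨hx, hc⟩
  by_cases hp : ∃ g : (ℕ → Bool) → US a, Continuous g ∧ (∀ c, g c ∈ B) ∧
      ∀ c d, UIso (g c) (g d) → c = d
  · exact Or.inr hp
  left
  have hf : ∀ n, ∃ f : ℕ → US a, ∀ x ∈ B ∩ D n, ∃ m, UIso (f m) x := by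
    intro n
    rcases hu n with h | ⟨g, k1, k2, k3⟩
    · exact h
    · exact absurd ⟨g, k1, fun c => (k2 c).1, k3⟩ hp
  choose f hf using hf
  refine ⟨fun m => f m.unpair.1 m.unpair.2, fun x hx => ?_⟩
  have h4 : ∃ n, x ∉ E n := by
    by_contra hc
    push Not at hc
    have : x ∈ ⋂ n, E n := mem_iInter.2 hc
    rw [hE3] at this
    exact this
  obtain ⟨n, hn⟩ := h4
  obtain ⟨m, hm⟩ := hf n x ⟨hx, hD3 n ⟨x, ⟨hx, hn⟩, uiso_refl x⟩⟩
  exact ⟨Nat.pair n m, by simpa using hm⟩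

theorem cun_coan (V : ℕ → RS a → Prop) (h2 : ∀ n, Coan (V n)) : Coan fun x => ∃ n, V n x := by
  unfold Coan
  have h1 : {x : RS a | ¬ ∃ n, V n x} = ⋂ n, {x : RS a | ¬ V n x} := by
    ext x
    simp
  rw [h1]
  exact AnalyticSet.iInter fun n => h2 n

theorem cun_inv (V : ℕ → RS a → Prop) (h3 : ∀ n, Inv (V n)) : Inv fun x => ∃ n, V n x := by
  rintro x y hxy ⟨n, hn⟩
  exact ⟨n, h3 n x y hxy hn⟩

end Pool.Agent.TH425.FF
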