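import Pool.Agent.TH425.FF.Par
import Pool.Agent.TH425.FF.Comb

set_option autoImplicit false

/-!
Structures which depend only on a finite colouring off the edges of a graph without infinite
clique subdivision, as canonical expansions with finitely many parameters.
-/

namespace Pool.Agent.TH425.FF

open Set
open Pool.Agent.H899R2.VP (HasCliqueSubdivision hasCliqueSubdivision gaifman)
open Pool.Agent.H533R2.VO (RS RIso VC)
open Pool.Agent.H533R2.VS

variable {a : ℕ → ℕ}

/-- The value of a binary relation. -/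
def bin (x : RS a) (i u v : ℕ) : Bool := if a i = 2 then x i (p2 u v) else false

/-- Majority of three values. -/
def maj (f : ℕ → Bool) : Bool := (f 0 && f 1) || (f 1 && f 2) || (f 0 && f 2)

theorem maj_of {f : ℕ → Bool} {b : Bool}
    (h : ∀ m < 3, ∀ m' < 3, m ≠ m' → f m = b ∨ f m' = b) : maj f = b := by
  have h1 := h 0 (by omega) 1 (by omega) (by omega)
  have h2 := h 1 (by omega) 2 (by omega) (by omega)
  have h3 := h 0 (by omega) 2 (by omega) (by omega)
  unfold maj
  cases b <;> cases h4 : f 0 <;> cases h5 : f 1 <;> cases h6 : f 2 <;> simp_all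

/-- Majority of the relation `i` from `v` to the triple number `j`. -/
def out (q : ℕ → ℕ) (x : RS a) (i j v : ℕ) : Bool := maj fun m => bin x i v (q (3 * j + m))

/-- Majority of the relation `i` from the triple number `j` to `v`. -/
def inn (q : ℕ → ℕ) (x : RS a) (i j v : ℕ) : Bool := maj fun m => bin x i (q (3 * j + m)) v

/-- `v` looks like the triple number `j`. -/
def Mat (k : ℕ) (q : ℕ → ℕ) (x : RS a) (v j : ℕ) : Prop := ∀ i, ∀ j' < k,
  out q x i j' v = out q x i j' (q (3 * j)) ∧ inn q x i j' v = inn q x i j' (q (3 * j))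

open Classical in
/-- The colour of `v`; the value `k` means that there is no colour. -/
noncomputable def col (k : ℕ) (q : ℕ → ℕ) (x : RS a) (v : ℕ) : ℕ :=
  if h : ∃ j, j < k ∧ Mat k q x v j then Nat.find h else k

/-- The bit to be flipped. -/
noncomputable def phi (k : ℕ) (q : ℕ → ℕ) (x : RS a) (i u v : ℕ) : Bool :=
  (decide (col k q x u < k) && decide (col k q x v < k)) &&
    out q x i (col k q x v) (q (3 * col k q x u))

/-- Flip the binary relations. -/
def upd (x : RS a) (φ : ℕ → ℕ → ℕ → Bool) : RS a := fun i t =>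
  if h : a i = 2 then xor (x i t) (φ i (t ⟨0, by omega⟩) (t ⟨1, by omega⟩)) else x i t

/-- The predicates which record the flips. -/
noncomputable def prd (k : ℕ) (q : ℕ → ℕ) (x : RS a) : ℕ → ℕ → Bool :=
  mk2 (fun j u => decide (col k q x u = j ∧ j < k)) fun n u =>
    decide (col k q x u < k ∧ n.unpair.2 < k) &&
      out q x n.unpair.1 n.unpair.2 (q (3 * col k q x u))

/-- The expansion, with a sequence of parameters. -/
noncomputable def cq (k : ℕ) (q : ℕ → ℕ) (x : RS a) : RS (a1 a) :=
  cmb (upd x (phi k q x)) (prd k q x)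

/-- Disjunction. -/
def orr : ℕ → (ℕ → Bool) → Bool
  | 0, _ => false
  | n + 1, f => orr n f || f n

theorem orr_iff (n : ℕ) (f : ℕ → Bool) : orr n f = true ↔ ∃ j < n, f j = true := by
  induction n with
  | zero => simp [orr]
  | succ n ih =>
    simp only [orr, Bool.or_eq_true, ih]
    constructor
    · rintro (⟨j, h1, h2⟩ | h)
      · exact ⟨j, by omega, h2⟩
      · exact ⟨n, by omega, h⟩
    · rintro ⟨j, h1, h2⟩
      rcases Nat.lt_succ_iff_lt_or_eq.1 h1 with h3 | rfl
      · exact Or.inl ⟨j, h3, h2⟩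
      · exact Or.inr h2

/-- The bit to be flipped, from the predicates. -/
def rph (k : ℕ) (W : ℕ → ℕ → Bool) (i u v : ℕ) : Bool :=
  orr k fun j => ev W j v && od W (Nat.pair i j) u

/-- The inverse of the expansion. -/
def dq (k : ℕ) (z : RS (a1 a)) : RS a := upd (evn z) (rph k (odd z))

theorem upd_upd (x : RS a) (φ : ℕ → ℕ → ℕ → Bool) : upd (upd x φ) φ = x := by
  funext i t
  unfold upd
  by_cases h : a i = 2
  · simp only [dif_pos h]
    cases x i t <;> cases φ i (t ⟨0, by omega⟩) (t ⟨1, by omega⟩) <;> rfl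
  · simp only [dif_neg h]

theorem col_le (k : ℕ) (q : ℕ → ℕ) (x : RS a) (v : ℕ) : col k q x v ≤ k := by
  classical
  unfold col
  split_ifs with h
  · exact (Nat.find_spec h).1.le
  · exact le_rfl

theorem col_spec {k : ℕ} {q : ℕ → ℕ} {x : RS a} {v : ℕ} (h : col k q x v < k) :
    Mat k q x v (col k q x v) := by
  classical
  by_cases h1 : ∃ j, j < k ∧ Mat k q x v j
  · have h2 : col k q x v = Nat.find h1 := dif_pos h1
    rw [h2]
    exact (Nat.find_spec h1).2
  · have h2 : col k q x v = k := dif_neg h1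
    omega

theorem col_lt {k : ℕ} {q : ℕ → ℕ} {x : RS a} {v j : ℕ} (hj : j < k) (h : Mat k q x v j) :
    col k q x v < k := by
  classical
  have h1 : ∃ j, j < k ∧ Mat k q x v j := ⟨j, hj, h⟩
  have h2 : col k q x v = Nat.find h1 := dif_pos h1
  rw [h2]
  exact (Nat.find_spec h1).1

theorem col_eq_iff {k : ℕ} {q : ℕ → ℕ} {x : RS a} {v j : ℕ} : col k q x v = j ↔
    ((j < k ∧ Mat k q x v j) ∧ ∀ j' < j, ¬ Mat k q x v j') ∨
      (j = k ∧ ∀ j' < k, ¬ Mat k q x v j') := by
  classical
  by_cases h1 : ∃ j, j < k ∧ Mat k q x v j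
  · have h2 : col k q x v = Nat.find h1 := dif_pos h1
    rw [h2, Nat.find_eq_iff]
    constructor
    · rintro ⟨h3, h4⟩
      exact Or.inl ⟨h3, fun j' hj' hM => h4 j' hj' ⟨by omega, hM⟩⟩
    · rintro (⟨h3, h4⟩ | ⟨-, h4⟩)
      · exact ⟨h3, fun j' hj' hM => h4 j' hj' hM.2⟩
      · obtain ⟨j', h5, h6⟩ := h1
        exact absurd h6 (h4 j' h5)
  · have h2 : col k q x v = k := dif_neg h1
    rw [h2]
    push Not at h1
    constructor
    · rintro rfl
      exact Or.inr ⟨rfl, h1⟩
    · rintro (⟨h3, -⟩ | ⟨h3, -⟩)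
      · exact absurd h3.2 (h1 j h3.1)
      · exact h3.symm

theorem rph_prd (k : ℕ) (q : ℕ → ℕ) (x : RS a) : rph k (prd k q x) = phi k q x := by
  funext i u v
  rw [Bool.eq_iff_iff]
  unfold rph phi
  rw [orr_iff]
  have e1 : ev (prd k q x) = fun j u => decide (col k q x u = j ∧ j < k) := ev_mk2 _ _
  have e2 : od (prd k q x) = fun n u => decide (col k q x u < k ∧ n.unpair.2 < k) &&
      out q x n.unpair.1 n.unpair.2 (q (3 * col k q x u)) := od_mk2 _ _
  rw [e1, e2]
  simp only [Bool.and_eq_true, decide_eq_true_eq, Nat.unpair_pair]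
  constructor
  · rintro ⟨j, h1, ⟨h2, h3⟩, ⟨h4, -⟩, h5⟩
    subst h2
    exact ⟨⟨h4, h3⟩, h5⟩
  · rintro ⟨⟨h1, h2⟩, h3⟩
    exact ⟨_, h2, ⟨rfl, h2⟩, ⟨h1, h2⟩, h3⟩

theorem dq_cq (k : ℕ) (q : ℕ → ℕ) (x : RS a) : dq k (cq k q x) = x := by
  have h := (t_CMB a).1 (upd x (phi k q x)) (prd k q x)
  unfold dq cq
  rw [h.1, h.2, rph_prd, upd_upd]

/-! ### Dependence on the parameters -/

theorem out_congr {k : ℕ} {q q' : ℕ → ℕ} (h : ∀ n < 3 * k, q n = q' n) (x : RS a) {i j v : ℕ}
    (hj : j < k) : out q x i j v = out q' x i j v := by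
  unfold out maj
  beta_reduce
  rw [h (3 * j + 0) (by omega), h (3 * j + 1) (by omega), h (3 * j + 2) (by omega)]

theorem inn_congr {k : ℕ} {q q' : ℕ → ℕ} (h : ∀ n < 3 * k, q n = q' n) (x : RS a) {i j v : ℕ}
    (hj : j < k) : inn q x i j v = inn q' x i j v := by
  unfold inn maj
  beta_reduce
  rw [h (3 * j + 0) (by omega), h (3 * j + 1) (by omega), h (3 * j + 2) (by omega)]

theorem mat_congr {k : ℕ} {q q' : ℕ → ℕ} (h : ∀ n < 3 * k, q n = q' n) (x : RS a) {v j : ℕ}
    (hj : j < k) : Mat k q x v j ↔ Mat k q' x v j := by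
  unfold Mat
  refine forall_congr' fun i => forall_congr' fun j' => forall_congr' fun hj' => ?_
  rw [out_congr h x hj', out_congr h x hj', inn_congr h x hj', inn_congr h x hj',
    h (3 * j) (by omega)]

theorem col_congr {k : ℕ} {q q' : ℕ → ℕ} (h : ∀ n < 3 * k, q n = q' n) (x : RS a) (v : ℕ) :
    col k q x v = col k q' x v := by
  have h1 := (col_eq_iff (k := k) (q := q) (x := x) (v := v) (j := col k q x v)).1 rfl
  refine (col_eq_iff.2 ?_).symm
  rcases h1 with ⟨⟨h1, h2⟩, h3⟩ | ⟨h1, h2⟩
  · exact Or.inl ⟨⟨h1, (mat_congr h x h1).1 h2⟩, fun j' hj' hM =>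
      h3 j' hj' ((mat_congr h x (by omega)).2 hM)⟩
  · exact Or.inr ⟨h1, fun j' hj' hM => h2 j' hj' ((mat_congr h x hj').2 hM)⟩

theorem cq_congr {k : ℕ} {q q' : ℕ → ℕ} (h : ∀ n < 3 * k, q n = q' n) (x : RS a) :
    cq k q x = cq k q' x := by
  have e1 : phi k q x = phi k q' x := by
    funext i u v
    unfold phi
    rw [col_congr h x u, col_congr h x v]
    by_cases h1 : col k q' x u < k ∧ col k q' x v < k
    · rw [out_congr h x h1.2, h (3 * col k q' x u) (by omega)]
    · rw [not_and_or] at h1
      rcases h1 with h1 | h1 <;> simp [h1]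
  have e2 : prd k q x = prd k q' x := by
    unfold prd
    congr 1
    · funext j u
      rw [col_congr h x u]
    · funext n u
      rw [col_congr h x u]
      by_cases h1 : col k q' x u < k ∧ n.unpair.2 < k
      · rw [out_congr h x h1.2, h (3 * col k q' x u) (by omega)]
      · simp only [h1, decide_false, Bool.false_and]
  unfold cq
  rw [e1, e2]

/-! ### Equivariance -/

theorem bin_act (σ : Equiv.Perm ℕ) (x : RS a) (i u v : ℕ) :
    bin (act σ x) i (σ u) (σ v) = bin x i u v := by
  unfold bin act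
  have : (⇑σ.symm ∘ (p2 (σ u) (σ v) : Fin (a i) → ℕ)) = p2 u v := by
    funext j
    unfold p2
    simp only [Function.comp]
    split_ifs <;> simp
  rw [this]

theorem out_act (σ : Equiv.Perm ℕ) (q : ℕ → ℕ) (x : RS a) (i j v : ℕ) :
    out (⇑σ ∘ q) (act σ x) i j (σ v) = out q x i j v := by
  unfold out
  simp only [Function.comp, bin_act]

theorem inn_act (σ : Equiv.Perm ℕ) (q : ℕ → ℕ) (x : RS a) (i j v : ℕ) :
    inn (⇑σ ∘ q) (act σ x) i j (σ v) = inn q x i j v := by
  unfold inn
  simp only [Function.comp, bin_act]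

theorem mat_act (σ : Equiv.Perm ℕ) (k : ℕ) (q : ℕ → ℕ) (x : RS a) (v j : ℕ) :
    Mat k (⇑σ ∘ q) (act σ x) (σ v) j ↔ Mat k q x v j := by
  unfold Mat
  simp only [out_act, inn_act, Function.comp_apply]

theorem col_act (σ : Equiv.Perm ℕ) (k : ℕ) (q : ℕ → ℕ) (x : RS a) (v : ℕ) :
    col k (⇑σ ∘ q) (act σ x) (σ v) = col k q x v := by
  have h1 := (col_eq_iff (k := k) (q := q) (x := x) (v := v) (j := col k q x v)).1 rfl
  refine col_eq_iff.2 ?_
  simp only [mat_act]
  exact h1

theorem upd_act (σ : Equiv.Perm ℕ) (x : RS a) (φ φ' : ℕ → ℕ → ℕ → Bool)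
    (h : ∀ i u v, φ' i (σ u) (σ v) = φ i u v) : upd (act σ x) φ' = act σ (upd x φ) := by
  funext i t
  unfold upd act
  by_cases hi : a i = 2
  · simp only [dif_pos hi, Function.comp_apply]
    congr 1
    have := h i (σ.symm (t ⟨0, by omega⟩)) (σ.symm (t ⟨1, by omega⟩))
    rw [σ.apply_symm_apply, σ.apply_symm_apply] at this
    exact this
  · simp only [dif_neg hi]

theorem cmb_act (σ : Equiv.Perm ℕ) (x : RS a) (U U' : ℕ → ℕ → Bool)
    (h : ∀ i u, U' i (σ u) = U i u) : cmb (act σ x) U' = act σ (cmb x U) := by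
  funext n t
  unfold cmb act
  by_cases hn : n % 2 = 0
  · simp only [dif_pos hn]
    rfl
  · simp only [dif_neg hn, Function.comp_apply]
    have := h (n / 2) (σ.symm (t ⟨0, a1_odd' a hn⟩))
    rw [σ.apply_symm_apply] at this
    exact this

theorem phi_act (σ : Equiv.Perm ℕ) (k : ℕ) (q : ℕ → ℕ) (x : RS a) (i u v : ℕ) :
    phi k (⇑σ ∘ q) (act σ x) i (σ u) (σ v) = phi k q x i u v := by
  unfold phi
  rw [col_act, col_act]
  congr 1
  exact out_act σ q x i _ _

theorem prd_act (σ : Equiv.Perm ℕ) (k : ℕ) (q : ℕ → ℕ) (x : RS a) (n u : ℕ) :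
    prd k (⇑σ ∘ q) (act σ x) n (σ u) = prd k q x n u := by
  unfold prd mk2
  by_cases hn : n % 2 = 0
  · simp only [if_pos hn, col_act]
  · simp only [if_neg hn, col_act]
    congr 1
    exact out_act σ q x _ _ _

theorem cq_act (σ : Equiv.Perm ℕ) (k : ℕ) (q : ℕ → ℕ) (x : RS a) :
    cq k (⇑σ ∘ q) (act σ x) = act σ (cq k q x) := by
  unfold cq
  rw [upd_act σ x (phi k q x) _ fun i u v => phi_act σ k q x i u v]
  exact cmb_act σ _ _ _ fun n u => prd_act σ k q x n u

theorem evn_act (σ : Equiv.Perm ℕ) (z : RS (a1 a)) : evn (act σ z) = act σ (evn z) := rfl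

theorem odd_act (σ : Equiv.Perm ℕ) (z : RS (a1 a)) (i u : ℕ) :
    odd (act σ z) i (σ u) = odd z i u := by
  unfold odd act
  congr 1
  funext _
  exact σ.symm_apply_apply u

theorem dq_act (σ : Equiv.Perm ℕ) (k : ℕ) (z : RS (a1 a)) :
    dq k (act σ z) = act σ (dq k z) := by
  unfold dq
  rw [evn_act]
  refine upd_act σ _ _ _ fun i u v => ?_
  unfold rph
  congr 1
  funext j
  unfold ev od
  rw [odd_act, odd_act]

/-! ### The version with lists -/

/-- The expansion. -/
noncomputable def cl (p : List ℕ) (x : RS a) : RS (a1 a) :=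
  cq (p.length / 3) (fun n => p.getD n 0) x

/-- Its inverse. -/
def dl (p : List ℕ) (z : RS (a1 a)) : RS a := dq (p.length / 3) z

theorem dl_cl (p : List ℕ) (x : RS a) : dl p (cl p x) = x := dq_cq _ _ _

theorem cl_act (σ : Equiv.Perm ℕ) (p : List ℕ) (x : RS a) :
    cl (p.map σ) (act σ x) = act σ (cl p x) := by
  unfold cl
  rw [← cq_act, List.length_map]
  refine cq_congr (fun n hn => ?_) _
  have h : n < p.length := by omega
  simp [List.getD_eq_getElem?_getD, h]

theorem dl_act (σ : Equiv.Perm ℕ) (p : List ℕ) (z : RS (a1 a)) :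
    dl (p.map σ) (act σ z) = act σ (dl p z) := by
  unfold dl
  rw [List.length_map]
  exact dq_act σ _ z

/-! ### Measurability -/

theorem bin_meas (i u v : ℕ) : Measurable fun x : RS a => bin x i u v := by
  unfold bin
  by_cases h : a i = 2
  · simp only [h, if_true]
    exact (measurable_pi_apply _).comp (measurable_pi_apply i)
  · simp only [h, if_false]
    exact measurable_const

theorem and_meas {X : Type} [MeasurableSpace X] {f g : X → Bool} (hf : Measurable f)
    (hg : Measurable g) : Measurable fun x => (f x && g x) :=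
  (measurable_of_countable fun b : Bool × Bool => (b.1 && b.2)).comp (hf.prodMk hg)

theorem or_meas {X : Type} [MeasurableSpace X] {f g : X → Bool} (hf : Measurable f)
    (hg : Measurable g) : Measurable fun x => (f x || g x) :=
  (measurable_of_countable fun b : Bool × Bool => (b.1 || b.2)).comp (hf.prodMk hg)

theorem xor_meas {X : Type} [MeasurableSpace X] {f g : X → Bool} (hf : Measurable f)
    (hg : Measurable g) : Measurable fun x => xor (f x) (g x) :=
  (measurable_of_countable fun b : Bool × Bool => xor b.1 b.2).comp (hf.prodMk hg)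

theorem maj_meas {X : Type} [MeasurableSpace X] {f : X → ℕ → Bool}
    (hf : ∀ m, Measurable fun x => f x m) : Measurable fun x => maj (f x) :=
  or_meas (or_meas (and_meas (hf 0) (hf 1)) (and_meas (hf 1) (hf 2))) (and_meas (hf 0) (hf 2))

theorem out_meas (q : ℕ → ℕ) (i j v : ℕ) : Measurable fun x : RS a => out q x i j v :=
  maj_meas fun _ => bin_meas _ _ _

theorem inn_meas (q : ℕ → ℕ) (i j v : ℕ) : Measurable fun x : RS a => inn q x i j v :=
  maj_meas fun _ => bin_meas _ _ _

theorem eq_meas {X : Type} [MeasurableSpace X] {f g : X → Bool} (hf : Measurable f)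
    (hg : Measurable g) : Measurable fun x => (f x = g x) :=
  (measurable_of_countable fun b : Bool × Bool => (b.1 = b.2)).comp (hf.prodMk hg)

theorem mat_meas (k : ℕ) (q : ℕ → ℕ) (v j : ℕ) : Measurable fun x : RS a => Mat k q x v j := by
  unfold Mat
  refine Measurable.forall fun i => Measurable.forall fun j' =>
    Measurable.imp measurable_const (Measurable.and ?_ ?_)
  · exact eq_meas (out_meas q i j' v) (out_meas q i j' _)
  · exact eq_meas (inn_meas q i j' v) (inn_meas q i j' _)

theorem col_meas (k : ℕ) (q : ℕ → ℕ) (v : ℕ) : Measurable fun x : RS a => col k q x v := by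
  refine measurable_to_countable' fun j => ?_
  have h1 : (fun x : RS a => col k q x v) ⁻¹' {j} = {x | ((j < k ∧ Mat k q x v j) ∧
      ∀ j' < j, ¬ Mat k q x v j') ∨ (j = k ∧ ∀ j' < k, ¬ Mat k q x v j')} := by
    ext x
    exact col_eq_iff
  rw [h1]
  apply Measurable.setOf
  refine Measurable.or (Measurable.and (Measurable.and measurable_const (mat_meas k q v j)) ?_)
    (Measurable.and measurable_const ?_)
  · exact Measurable.forall fun j' => Measurable.imp measurable_const (mat_meas k q v j').not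
  · exact Measurable.forall fun j' => Measurable.imp measurable_const (mat_meas k q v j').not

theorem phi_meas (k : ℕ) (q : ℕ → ℕ) (i u v : ℕ) : Measurable fun x : RS a => phi k q x i u v := by
  unfold phi
  exact KSPAux.sel (fun (b : ℕ × ℕ) (x : RS a) => (decide (b.1 < k) && decide (b.2 < k)) &&
    out q x i b.2 (q (3 * b.1))) (fun b => and_meas measurable_const (out_meas q i _ _))
    (fun x => (col k q x u, col k q x v)) ((col_meas k q u).prodMk (col_meas k q v))

theorem prd_meas (k : ℕ) (q : ℕ → ℕ) : Measurable fun x : RS a => prd k q x := by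
  refine measurable_pi_iff.2 fun n => measurable_pi_iff.2 fun u => ?_
  unfold prd mk2
  by_cases hn : n % 2 = 0
  · simp only [if_pos hn]
    exact (measurable_of_countable fun m : ℕ => decide (m = n / 2 ∧ n / 2 < k)).comp
      (col_meas k q u)
  · simp only [if_neg hn]
    exact KSPAux.sel (fun (b : ℕ) (x : RS a) => decide (b < k ∧ (n / 2).unpair.2 < k) &&
      out q x (n / 2).unpair.1 (n / 2).unpair.2 (q (3 * b)))
      (fun b => and_meas measurable_const (out_meas q _ _ _))
      (fun x => col k q x u) (col_meas k q u)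

theorem upd_meas (k : ℕ) (q : ℕ → ℕ) : Measurable fun x : RS a => upd x (phi k q x) := by
  refine measurable_pi_iff.2 fun i => measurable_pi_iff.2 fun t => ?_
  unfold upd
  by_cases hi : a i = 2
  · simp only [dif_pos hi]
    exact xor_meas ((measurable_pi_apply _).comp (measurable_pi_apply i)) (phi_meas k q i _ _)
  · simp only [dif_neg hi]
    exact (measurable_pi_apply _).comp (measurable_pi_apply i)

theorem cq_meas (k : ℕ) (q : ℕ → ℕ) : Measurable fun x : RS a => cq k q x := by
  have h := (t_CMB a).2.2.2.2.1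
  exact h.measurable.comp ((upd_meas k q).prodMk (prd_meas k q))

theorem orr_cont {X : Type} [TopologicalSpace X] (k : ℕ) (f : X → ℕ → Bool)
    (hf : ∀ j, Continuous fun x => f x j) : Continuous fun x => orr k (f x) := by
  induction k with
  | zero => exact continuous_const
  | succ k ih =>
    exact (continuous_of_discreteTopology (f := fun b : Bool × Bool => (b.1 || b.2))).comp
      (ih.prodMk (hf k))

theorem dq_cont (k : ℕ) : Continuous fun z : RS (a1 a) => dq k z := by
  have h := t_CMB a
  refine continuous_pi fun i => continuous_pi fun t => ?_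
  unfold dq upd
  by_cases hi : a i = 2
  · simp only [dif_pos hi]
    refine (continuous_of_discreteTopology (f := fun b : Bool × Bool => xor b.1 b.2)).comp
      (Continuous.prodMk ?_ ?_)
    · exact (continuous_apply t).comp ((continuous_apply i).comp h.2.2.1)
    · refine orr_cont k _ fun j => ?_
      refine (continuous_of_discreteTopology (f := fun b : Bool × Bool => (b.1 && b.2))).comp
        (Continuous.prodMk ?_ ?_)
      · exact (continuous_apply (t ⟨1, by omega⟩)).comp
          ((continuous_apply j).comp (ev_cont.comp h.2.2.2.1))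
      · exact (continuous_apply (t ⟨0, by omega⟩)).comp
          ((continuous_apply (Nat.pair i j)).comp (od_cont.comp h.2.2.2.1))
  · simp only [dif_neg hi]
    exact (continuous_apply t).comp ((continuous_apply i).comp h.2.2.1)

theorem pcanon_flip : PCanon (cl : List ℕ → RS a → RS (a1 a)) (dl : List ℕ → RS (a1 a) → RS a) where
  meas := fun _ => cq_meas _ _
  dmeas := fun _ => (dq_cont _).measurable
  cact := cl_act
  dact := dl_act

end Pool.Agent.TH425.FF
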