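import Pool.Agent.TH425.FF.Flip

set_option autoImplicit false

/-!
The structures which become sparse by the expansion `cl` are those which depend only on a finite
colouring off the edges of a graph without infinite clique subdivision.
-/

namespace Pool.Agent.TH425.FF

open Set
open Pool.Agent.H899R2.VP (HasCliqueSubdivision hasCliqueSubdivision gaifman)
open Pool.Agent.H533R2.VO (RS RIso VC)
open Pool.Agent.H533R2.VS

variable {a : ℕ → ℕ}

/-- Off the edges of a graph without infinite clique subdivision the binary relations depend only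
on a finite colouring; the other relations hold only for tuples contained in cliques of the
graph. -/
def FlipS (x : RS a) : Prop :=
  ∃ (S : SimpleGraph ℕ) (k : ℕ) (p : ℕ → Fin k) (f : ℕ → Fin k → Fin k → Bool),
    ¬ HasCliqueSubdivision S ∧
    (∀ i, a i = 2 → ∀ u v, u ≠ v → ¬ S.Adj u v → x i (p2 u v) = f i (p u) (p v)) ∧
    (∀ i, a i ≠ 2 → ∀ t, x i t = true → ∀ j l, t j = t l ∨ S.Adj (t j) (t l))

theorem gaif_cmb {x : RS a} {U : ℕ → ℕ → Bool} {u v : ℕ} :
    (gaifman (cmb x U)).Adj u v ↔ (gaifman x).Adj u v := by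
  constructor
  · rintro ⟨hne, n, t, ht, ⟨k, hk⟩, l, hl⟩
    by_cases hn : n % 2 = 0
    · unfold cmb at ht
      rw [dif_pos hn] at ht
      refine ⟨hne, n / 2, _, ht, ⟨Fin.cast (a1_even' a hn).symm k, ?_⟩,
        ⟨Fin.cast (a1_even' a hn).symm l, ?_⟩⟩
      · simpa using hk
      · simpa using hl
    · exfalso
      apply hne
      have h1 : a1 a n = 1 := by
        unfold a1
        rw [if_neg hn]
      have h2 : k = l := by
        have := k.2
        have := l.2
        exact Fin.ext (by omega)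
      rw [← hk, ← hl, h2]
  · rintro ⟨hne, i, t, ht, ⟨k, hk⟩, l, hl⟩
    have h1 := congrFun (congrFun ((t_CMB a).1 x U).1 i) t
    rw [← h1] at ht
    refine ⟨hne, 2 * i, _, ht, ⟨Fin.cast (a1_even a i).symm k, ?_⟩,
      ⟨Fin.cast (a1_even a i).symm l, ?_⟩⟩
    · simpa using hk
    · simpa using hl

theorem tup2 {n : ℕ} (h : n = 2) (t : Fin n → ℕ) :
    t = p2 (t ⟨0, by omega⟩) (t ⟨1, by omega⟩) := by
  subst h
  funext j
  unfold p2
  fin_cases j <;> rfl

theorem upd_bin {x : RS a} {φ : ℕ → ℕ → ℕ → Bool} {i : ℕ} (hi : a i = 2) (u v : ℕ) :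
    upd x φ i (p2 u v) = xor (x i (p2 u v)) (φ i u v) := by
  unfold upd
  rw [dif_pos hi]
  rfl

theorem flip_of_cl {x : RS a} {l : List ℕ} (h : ¬ HasCliqueSubdivision (gaifman (cl l x))) :
    FlipS x := by
  set k := l.length / 3 with hk
  set q : ℕ → ℕ := fun n => l.getD n 0 with hq
  refine ⟨gaifman (cl l x), k + 1, fun v => ⟨col k q x v, Nat.lt_succ_of_le (col_le k q x v)⟩,
    fun i j j' => (decide (j.val < k) && decide (j'.val < k)) && out q x i j'.val (q (3 * j.val)),
    h, ?_, ?_⟩
  · intro i hi u v huv hadj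
    show x i (p2 u v) = phi k q x i u v
    have h1 : upd x (phi k q x) i (p2 u v) = false := by
      by_contra hc
      apply hadj
      show (gaifman (cmb (upd x (phi k q x)) (prd k q x))).Adj u v
      rw [gaif_cmb]
      refine ⟨huv, i, p2 u v, by simpa using hc, ⟨⟨0, by omega⟩, rfl⟩, ⟨⟨1, by omega⟩, rfl⟩⟩
    rw [upd_bin hi] at h1
    cases h2 : x i (p2 u v) <;> cases h3 : phi k q x i u v <;> simp_all
  · intro i hi t ht j m
    by_cases hjm : t j = t m
    · exact Or.inl hjm
    · right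
      show (gaifman (cmb (upd x (phi k q x)) (prd k q x))).Adj (t j) (t m)
      rw [gaif_cmb]
      refine ⟨hjm, i, t, ?_, ⟨j, rfl⟩, ⟨m, rfl⟩⟩
      unfold upd
      rw [dif_neg hi]
      exact ht

theorem cl_of_flip {x : RS a} (h : FlipS x) :
    ∃ l : List ℕ, ¬ HasCliqueSubdivision (gaifman (cl l x)) := by
  classical
  obtain ⟨S, k, p, f, hS, hb, ho⟩ := h
  -- the infinite parts
  have hj0 : ∃ j0 : Fin k, (p ⁻¹' {j0}).Infinite := by
    by_contra hc
    push Not at hc
    have h1 : (univ : Set ℕ) = ⋃ j, p ⁻¹' {j} := by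
      ext v
      simp
    have h2 : (univ : Set ℕ).Finite := by
      rw [h1]
      exact Set.finite_iUnion fun j => Set.not_infinite.1 (by simpa using hc j)
    exact Set.infinite_univ h2
  obtain ⟨j0, hj0⟩ := hj0
  set r : Fin k → Fin k := fun j => if (p ⁻¹' {j}).Infinite then j else j0 with hr
  have hr1 : ∀ j, (p ⁻¹' {r j}).Infinite := by
    intro j
    by_cases hj : (p ⁻¹' {j}).Infinite
    · simp only [hr, if_pos hj]
      exact hj
    · simp only [hr, if_neg hj]
      exact hj0
  have hr2 : ∀ j, (p ⁻¹' {j}).Infinite → r j = j := by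
    intro j hj
    simp only [hr, if_pos hj]
  obtain ⟨A, hA1, hA2, hA3⟩ := pick hS (fun j => p ⁻¹' {r j}) hr1
  have hA1' : ∀ j m, p (A j m) = r j := hA1
  -- the parameters
  set q : ℕ → ℕ := fun n => if h : n / 3 < k then A ⟨n / 3, h⟩ (n % 3) else 0 with hq
  have hqA : ∀ (j : Fin k) (m : ℕ), m < 3 → q (3 * j.val + m) = A j m := by
    intro j m hm
    have h1 : (3 * j.val + m) / 3 = j.val := by omega
    have h2 : (3 * j.val + m) % 3 = m := by omega
    have h3 : (3 * j.val + m) / 3 < k := by rw [h1]; exact j.2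
    simp only [hq, dif_pos h3]
    rw [h2]
    congr 1
    exact Fin.ext h1
  -- the exceptional vertices
  set F0 : Set ℕ := {v | (p ⁻¹' {p v}).Finite} ∪ ⋃ j : Fin k, ⋃ m : Fin 3, ⋃ m' : Fin 3,
    {z | m ≠ m' ∧ S.Adj z (A j m.val) ∧ S.Adj z (A j m'.val)} with hF0
  have hF0f : F0.Finite := by
    refine Set.Finite.union ?_ ?_
    · have h1 : {v | (p ⁻¹' {p v}).Finite} ⊆ ⋃ j ∈ {j : Fin k | (p ⁻¹' {j}).Finite}, p ⁻¹' {j} := by
        intro v hv
        exact Set.mem_iUnion₂.2 ⟨p v, hv, rfl⟩
      exact Set.Finite.subset ((Set.toFinite _).biUnion fun j hj => hj) h1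
    · refine Set.finite_iUnion fun j => Set.finite_iUnion fun m => Set.finite_iUnion fun m' => ?_
      by_cases hm : m = m'
      · subst hm
        simp
      · have h1 := (hA3 j m.val m'.val m.2 m'.2 fun h => hm (Fin.ext h)).2
        exact h1.subset fun z hz => hz.2
  have hinf : ∀ v, v ∉ F0 → (p ⁻¹' {p v}).Infinite := fun v hv h => hv (Or.inl h)
  have hcn : ∀ v, v ∉ F0 → ∀ (j : Fin k) (m m' : ℕ), m < 3 → m' < 3 → m ≠ m' →
      S.Adj v (A j m) → S.Adj v (A j m') → False := by
    intro v hv j m m' hm hm' hne h1 h2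
    apply hv
    right
    refine Set.mem_iUnion.2 ⟨j, Set.mem_iUnion.2 ⟨⟨m, hm⟩, Set.mem_iUnion.2 ⟨⟨m', hm'⟩, ?_⟩⟩⟩
    exact ⟨fun h => hne (congrArg Fin.val h), h1, h2⟩
  have hAF : ∀ (j : Fin k) (m : ℕ), m < 3 → A j m ∉ F0 := by
    intro j m hm h
    rcases h with h | h
    · have h1 : (p ⁻¹' {p (A j m)}).Finite := h
      rw [hA1'] at h1
      exact hr1 j h1
    · obtain ⟨j', h⟩ := Set.mem_iUnion.1 h
      obtain ⟨m', h⟩ := Set.mem_iUnion.1 h
      obtain ⟨m'', h⟩ := Set.mem_iUnion.1 h
      exact hA2 j m j' m'.val hm m'.2 h.2.1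
  -- the majorities
  set g : ℕ → Fin k → Fin k → Bool := fun i j j' => if a i = 2 then f i j j' else false with hg
  have hbad : ∀ v, v ∉ F0 → ∀ (j : Fin k) (m m' : ℕ), m < 3 → m' < 3 → m ≠ m' →
      (v ≠ A j m ∧ ¬ S.Adj v (A j m)) ∨ (v ≠ A j m' ∧ ¬ S.Adj v (A j m')) := by
    intro v hv j m m' hm hm' hne
    by_contra hc
    rw [not_or] at hc
    obtain ⟨h1, h2⟩ := hc
    rw [not_and_or, not_ne_iff, not_not] at h1 h2
    rcases h1 with h1 | h1
    · rcases h2 with h2 | h2
      · exact (hA3 j m m' hm hm' hne).1 (h1.symm.trans h2)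
      · rw [h1] at h2
        exact hA2 j m j m' hm hm' h2
    · rcases h2 with h2 | h2
      · rw [h2] at h1
        exact hA2 j m' j m hm' hm h1
      · exact hcn v hv j m m' hm hm' hne h1 h2
  have hout : ∀ v, v ∉ F0 → ∀ (i : ℕ) (j : Fin k), out q x i j.val v = g i (p v) (r j) := by
    intro v hv i j
    unfold out
    refine maj_of fun m hm m' hm' hne => ?_
    have key : ∀ m, m < 3 → (v ≠ A j m ∧ ¬ S.Adj v (A j m)) →
        bin x i v (q (3 * j.val + m)) = g i (p v) (r j) := by
      intro m hm h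
      rw [hqA j m hm]
      unfold bin
      simp only [hg]
      by_cases hi : a i = 2
      · simp only [if_pos hi]
        rw [hb i hi _ _ h.1 h.2, hA1']
      · simp only [if_neg hi]
    rcases hbad v hv j m m' hm hm' hne with h | h
    · exact Or.inl (key m hm h)
    · exact Or.inr (key m' hm' h)
  have hinn : ∀ v, v ∉ F0 → ∀ (i : ℕ) (j : Fin k), inn q x i j.val v = g i (r j) (p v) := by
    intro v hv i j
    unfold inn
    refine maj_of fun m hm m' hm' hne => ?_
    have key : ∀ m, m < 3 → (v ≠ A j m ∧ ¬ S.Adj v (A j m)) →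
        bin x i (q (3 * j.val + m)) v = g i (r j) (p v) := by
      intro m hm h
      rw [hqA j m hm]
      unfold bin
      simp only [hg]
      by_cases hi : a i = 2
      · simp only [if_pos hi]
        rw [hb i hi _ _ (Ne.symm h.1) fun h' => h.2 h'.symm, hA1']
      · simp only [if_neg hi]
    rcases hbad v hv j m m' hm hm' hne with h | h
    · exact Or.inl (key m hm h)
    · exact Or.inr (key m' hm' h)
  have hq0 : ∀ j : Fin k, q (3 * j.val) = A j 0 := fun j => hqA j 0 (by omega)
  have hmat : ∀ v, v ∉ F0 → ∀ j : Fin k, Mat k q x v j.val ↔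
      ∀ i (j' : Fin k), g i (p v) (r j') = g i (r j) (r j') ∧
        g i (r j') (p v) = g i (r j') (r j) := by
    intro v hv j
    unfold Mat
    refine forall_congr' fun i => ?_
    constructor
    · intro h j'
      have := h j'.val j'.2
      rw [hq0, hout v hv, hinn v hv, hout _ (hAF j 0 (by omega)), hinn _ (hAF j 0 (by omega)),
        hA1'] at this
      exact this
    · intro h j' hj'
      have := h ⟨j', hj'⟩
      rw [hq0]
      have e1 := hout v hv i ⟨j', hj'⟩
      have e2 := hinn v hv i ⟨j', hj'⟩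
      have e3 := hout _ (hAF j 0 (by omega)) i ⟨j', hj'⟩
      have e4 := hinn _ (hAF j 0 (by omega)) i ⟨j', hj'⟩
      rw [hA1'] at e3 e4
      simp only at e1 e2 e3 e4
      rw [e1, e2, e3, e4]
      exact this
  have hcol : ∀ v, v ∉ F0 → col k q x v < k := by
    intro v hv
    refine col_lt (p v).2 ?_
    rw [hmat v hv (p v), hr2 _ (hinf v hv)]
    exact fun i j' => ⟨rfl, rfl⟩
  have hphi : ∀ u v, u ∉ F0 → v ∉ F0 → ∀ i, phi k q x i u v = g i (p u) (p v) := by
    intro u v hu hv i
    have h1 := hcol u hu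
    have h2 := hcol v hv
    have h3 := (hmat u hu ⟨_, h1⟩).1 (col_spec h1)
    have h4 := (hmat v hv ⟨_, h2⟩).1 (col_spec h2)
    unfold phi
    simp only [h1, h2, decide_true, Bool.true_and]
    have e1 := hout _ (hAF ⟨_, h1⟩ 0 (by omega)) i ⟨_, h2⟩
    have e2 := hq0 ⟨_, h1⟩
    rw [hA1'] at e1
    simp only at e1 e2
    rw [e2, e1, ← (h3 i ⟨_, h2⟩).1]
    have h5 := (h4 i (p u)).2
    rw [hr2 _ (hinf u hu)] at h5
    exact h5.symm
  -- the list
  refine ⟨(List.range (3 * k)).map q, ?_⟩
  have e1 : cl ((List.range (3 * k)).map q) x = cq k q x := by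
    unfold cl
    have h1 : ((List.range (3 * k)).map q).length / 3 = k := by
      rw [List.length_map, List.length_range]
      omega
    rw [h1]
    refine cq_congr (fun n hn => ?_) x
    simp [List.getD_eq_getElem?_getD, hn]
  rw [e1]
  refine apex F0 hF0f ?_ hS
  intro u v hu hv hadj
  have hadj' : (gaifman (cmb (upd x (phi k q x)) (prd k q x))).Adj u v := hadj
  rw [gaif_cmb] at hadj'
  obtain ⟨huv, i, t, ht, ⟨j, hj⟩, l, hl⟩ := hadj'
  by_cases hi : a i = 2
  · -- binary relations
    have key : ∀ u v, u ∉ F0 → v ∉ F0 → u ≠ v → upd x (phi k q x) i (p2 u v) = true →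
        S.Adj u v := by
      intro u v hu hv huv h1
      by_contra hc
      rw [upd_bin hi, hb i hi u v huv hc, hphi u v hu hv i] at h1
      simp only [hg, if_pos hi, Bool.xor_self] at h1
      exact Bool.false_ne_true h1
    rw [tup2 hi t] at ht
    have hjl : j ≠ l := by
      rintro rfl
      exact huv (hj.symm.trans hl)
    have hj2 : j.val < 2 := by have := j.2; omega
    have hl2 : l.val < 2 := by have := l.2; omega
    have hjl' : j.val ≠ l.val := fun h => hjl (Fin.ext h)
    rcases Nat.lt_or_ge j.val 1 with h1 | h1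
    · have e1 : (⟨0, by omega⟩ : Fin (a i)) = j := Fin.ext (by simp; omega)
      have e2 : (⟨1, by omega⟩ : Fin (a i)) = l := Fin.ext (by simp; omega)
      rw [e1, e2, hj, hl] at ht
      exact key u v hu hv huv ht
    · have e1 : (⟨0, by omega⟩ : Fin (a i)) = l := Fin.ext (by simp; omega)
      have e2 : (⟨1, by omega⟩ : Fin (a i)) = j := Fin.ext (by simp; omega)
      rw [e1, e2, hj, hl] at ht
      exact (key v u hv hu huv.symm ht).symm
  · -- other relations
    unfold upd at ht
    rw [dif_neg hi] at ht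
    rcases ho i hi t ht j l with h | h
    · exact absurd (hj.symm.trans (h.trans hl)) huv
    · rw [hj, hl] at h
      exact h

theorem flip_iff (x : RS a) : FlipS x ↔ PExp cl dl
    (fun z : RS (a1 a) => ¬ HasCliqueSubdivision (gaifman z)) x := by
  constructor
  · intro h
    obtain ⟨l, hl⟩ := cl_of_flip h
    exact ⟨l, hl, dl_cl l x⟩
  · rintro ⟨l, hl, -⟩
    exact flip_of_cl hl

/-- The class of the finite flips is coanalytic and invariant and satisfies Vaught's
conjecture. -/
theorem flip_all (a : ℕ → ℕ) : VCu (FlipS : RS a → Prop) ∧ Coan (FlipS : RS a → Prop) ∧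
    Inv (FlipS : RS a → Prop) := by
  have e : (FlipS : RS a → Prop) = PExp cl dl
      (fun z : RS (a1 a) => ¬ HasCliqueSubdivision (gaifman z)) := by
    funext x
    exact propext (flip_iff x)
  rw [e]
  exact ⟨pexp_vcu pcanon_flip (vs_sparse _) (vs_ksp _).1 (vs_ksp _).2,
    pexp_coan pcanon_flip (vs_ksp _).1, pexp_inv pcanon_flip (vs_ksp _).2⟩

end Pool.Agent.TH425.FF
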