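import Mathlib

set_option autoImplicit false

/-! Novikov's separation theorem for countably many analytic sets. -/

namespace Pool.Agent.TH425.FF

open Set MeasureTheory

/-- The sets `A n` are contained in measurable sets with empty intersection. -/
def NSep {X : Type*} [MeasurableSpace X] (A : ℕ → Set X) : Prop :=
  ∃ B : ℕ → Set X, (∀ n, MeasurableSet (B n)) ∧ (∀ n, A n ⊆ B n) ∧ ⋂ n, B n = ∅

theorem nsep_split {X : Type*} [MeasurableSpace X] {A : ℕ → Set X} (k : ℕ) (C : ℕ → ℕ → Set X)
    (hk : A k ⊆ ⋃ j, C j k) (ho : ∀ n, n ≠ k → ∀ j, C j n = A n)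
    (h : ∀ j, NSep (C j)) : NSep A := by
  classical
  choose B h1 h2 h3 using h
  refine ⟨fun n => if n = k then ⋃ j, B j k else ⋂ j, B j n, ?_, ?_, ?_⟩
  · intro n
    by_cases hn : n = k
    · simp only [hn, if_true]
      exact MeasurableSet.iUnion fun j => h1 j k
    · simp only [hn, if_false]
      exact MeasurableSet.iInter fun j => h1 j n
  · intro n
    by_cases hn : n = k
    · subst hn
      simp only [if_true]
      refine hk.trans ?_
      exact iUnion_mono fun j => h2 j n
    · simp only [hn, if_false]
      refine subset_iInter fun j => ?_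
      rw [← ho n hn j]
      exact h2 j n
  · rw [eq_empty_iff_forall_notMem]
    intro z hz
    rw [mem_iInter] at hz
    have hzk := hz k
    simp only [if_true] at hzk
    obtain ⟨j, hj⟩ := mem_iUnion.1 hzk
    have : z ∈ ⋂ n, B j n := by
      rw [mem_iInter]
      intro n
      by_cases hn : n = k
      · rw [hn]; exact hj
      · have := hz n
        simp only [hn, if_false] at this
        exact mem_iInter.1 this j
    rw [h3 j] at this
    exact this

/-- A neighbourhood of a point of the Baire space contains all points with the same beginning. -/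
theorem nhd_cyl {U : Set (ℕ → ℕ)} (hU : IsOpen U) {w : ℕ → ℕ} (hw : w ∈ U) :
    ∃ L : ℕ, ∀ w' : ℕ → ℕ, (∀ i < L, w' i = w i) → w' ∈ U := by
  obtain ⟨I, u, h1, h2⟩ := isOpen_pi_iff.1 hU w hw
  refine ⟨I.sup id + 1, fun w' hw' => h2 ?_⟩
  intro i hi
  have h3 : i ≤ I.sup id := Finset.le_sup (f := id) hi
  rw [hw' i (by omega)]
  exact (h1 i hi).2

/-- Novikov's theorem. -/
theorem novikov {X : Type*} [TopologicalSpace X] [T2Space X] [MeasurableSpace X]
    [OpensMeasurableSpace X] (A : ℕ → Set X) (hA : ∀ n, AnalyticSet (A n))
    (h0 : ⋂ n, A n = ∅) : NSep A := by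
  classical
  by_contra hcon
  have hne : ∀ n, ∃ f : (ℕ → ℕ) → X, Continuous f ∧ range f = A n := by
    intro n
    have h1 := hA n
    rw [AnalyticSet] at h1
    rcases h1 with h1 | h1
    · exfalso
      apply hcon
      refine ⟨fun m => if m = n then ∅ else univ, ?_, ?_, ?_⟩
      · intro m
        by_cases hm : m = n
        · simp [hm]
        · simp [hm]
      · intro m
        by_cases hm : m = n
        · simp [hm, h1]
        · simp [hm]
      · rw [eq_empty_iff_forall_notMem]
        intro z hz
        have := mem_iInter.1 hz n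
        simp at this
    · exact h1
  choose f hf hr using hne
  -- the pieces
  set D : (ℕ → ℕ) → ℕ → ℕ → Set X := fun z k n =>
    f n '' {w | ∀ i, Nat.pair n i < k → w i = z (Nat.pair n i)} with hD
  have hcongr : ∀ (z z' : ℕ → ℕ) (k : ℕ), (∀ i < k, z i = z' i) → D z k = D z' k := by
    intro z z' k h
    funext n
    simp only [hD]
    congr 1
    ext w
    constructor
    · intro hw i hi
      rw [hw i hi, h _ hi]
    · intro hw i hi
      rw [hw i hi, h _ hi]
  have hstep : ∀ (z : ℕ → ℕ) (k : ℕ), ¬ NSep (D z k) →
      ∃ j, ¬ NSep (D (Function.update z k j) (k + 1)) := by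
    intro z k hk
    by_contra hc
    push Not at hc
    apply hk
    refine nsep_split (k.unpair.1) (fun j => D (Function.update z k j) (k + 1)) ?_ ?_ hc
    · rintro y ⟨w, hw, rfl⟩
      rw [mem_iUnion]
      refine ⟨w k.unpair.2, w, ?_, rfl⟩
      intro i hi
      by_cases hik : Nat.pair k.unpair.1 i = k
      · rw [hik, Function.update_self]
        congr 1
        have := congrArg (fun m => (Nat.unpair m).2) hik
        simpa using this
      · rw [Function.update_of_ne hik]
        exact hw i (by omega)
    · intro n hn j
      have hnk : ∀ i, Nat.pair n i ≠ k := by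
        intro i hi
        apply hn
        rw [← hi, Nat.unpair_pair]
      simp only [hD]
      congr 1
      ext w
      constructor
      · intro hw i hi
        have h5 := hw i (by omega)
        rwa [Function.update_of_ne (hnk i)] at h5
      · intro hw i hi
        rw [Function.update_of_ne (hnk i)]
        exact hw i (by have := hnk i; omega)
  choose! J hJ using hstep
  let g : ℕ → (ℕ → ℕ) := fun m => Nat.rec (fun _ => 0) (fun k z => Function.update z k (J z k)) m
  have hg : ∀ k, g (k + 1) = Function.update (g k) k (J (g k) k) := fun k => rfl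
  have hg1 : ∀ k, ¬ NSep (D (g k) k) := by
    intro k
    induction k with
    | zero =>
      intro h
      apply hcon
      have e : D (g 0) 0 = A := by
        funext n
        simp only [hD, Nat.not_lt_zero, false_imp_iff, implies_true]
        rw [← hr n]
        ext y
        simp
      rwa [e] at h
    | succ k ih =>
      rw [hg]
      exact hJ _ _ ih
  have hg2 : ∀ k i, i < k → g k i = g (i + 1) i := by
    intro k i hi
    induction k, hi using Nat.le_induction with
    | base => rfl
    | succ k hk ih =>
      rw [hg, Function.update_of_ne (by omega)]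
      exact ih
  set z : ℕ → ℕ := fun i => g (i + 1) i with hz
  have hz1 : ∀ k, ¬ NSep (D z k) := by
    intro k
    rw [hcongr z (g k) k fun i hi => (hg2 k i hi).symm]
    exact hg1 k
  set w : ℕ → ℕ → ℕ := fun n i => z (Nat.pair n i) with hw
  have h1 : ∃ n m, f n (w n) ≠ f m (w m) := by
    by_contra hc
    push Not at hc
    have : f 0 (w 0) ∈ ⋂ n, A n := by
      rw [mem_iInter]
      intro n
      rw [hc 0 n, ← hr n]
      exact mem_range_self _
    rw [h0] at this
    exact this
  obtain ⟨n, m, hnm⟩ := h1
  obtain ⟨U, V, hU, hV, hnU, hmV, hUV⟩ := t2_separation hnm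
  obtain ⟨L1, hL1⟩ := nhd_cyl (hU.preimage (hf n)) (w := w n) hnU
  obtain ⟨L2, hL2⟩ := nhd_cyl (hV.preimage (hf m)) (w := w m) hmV
  obtain ⟨K, hK1, hK2⟩ : ∃ K, (∀ i < L1, Nat.pair n i < K) ∧ ∀ i < L2, Nat.pair m i < K := by
    refine ⟨(Finset.range L1).sup (fun i => Nat.pair n i) +
      (Finset.range L2).sup (fun i => Nat.pair m i) + 1, fun i hi => ?_, fun i hi => ?_⟩
    · have h5 : Nat.pair n i ≤ (Finset.range L1).sup (fun i => Nat.pair n i) :=
        Finset.le_sup (f := fun i => Nat.pair n i) (Finset.mem_range.2 hi)
      omega
    · have h5 : Nat.pair m i ≤ (Finset.range L2).sup (fun i => Nat.pair m i) :=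
        Finset.le_sup (f := fun i => Nat.pair m i) (Finset.mem_range.2 hi)
      omega
  have hnem : n ≠ m := fun h => by subst h; exact hnm rfl
  apply hz1 K
  refine ⟨fun l => if l = n then U else if l = m then V else univ, ?_, ?_, ?_⟩
  · intro l
    by_cases h2 : l = n
    · simp only [h2, if_true]
      exact hU.measurableSet
    · by_cases h3 : l = m
      · simp only [h3, if_true]
        split_ifs
        · exact hU.measurableSet
        · exact hV.measurableSet
      · simp only [h2, h3, if_false]
        exact MeasurableSet.univ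
  · intro l
    by_cases h2 : l = n
    · subst h2
      simp only [if_true]
      rintro y ⟨w', hw', rfl⟩
      exact hL1 w' fun i hi => hw' i (hK1 i hi)
    · by_cases h3 : l = m
      · subst h3
        simp only [h2, if_true, if_false]
        rintro y ⟨w', hw', rfl⟩
        exact hL2 w' fun i hi => hw' i (hK2 i hi)
      · simp only [h2, h3, if_false]
        exact subset_univ _
  · rw [eq_empty_iff_forall_notMem]
    intro y hy
    rw [mem_iInter] at hy
    have h2 := hy n
    have h3 := hy m
    simp only [if_true] at h2
    simp only [hnem.symm, if_true, if_false] at h3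
    exact Set.disjoint_left.1 hUV h2 h3

end Pool.Agent.TH425.FF
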