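import Pool.Agent.H533R2.VS.All2
import Pool.Agent.H899R2.VP.Few
import Pool.Agent.TH783.TR.Transfer
import Pool.Agent.TH425.FF.Nov

set_option autoImplicit false

/-!
Vaught's conjecture is preserved by canonical expansions with finitely many parameters.
-/

namespace Pool.Agent.TH425.FF

open Set
open MeasureTheory (AnalyticSet)
open Pool.Agent.H533R2.VO (RS RIso VC Dich)
open Pool.Agent.H533R2.VS

/-- Equivariant maps in both directions, depending on a tuple of points. -/
structure PCanon {a b : ℕ → ℕ} (c : List ℕ → RS a → RS b) (d : List ℕ → RS b → RS a) :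
    Prop where
  meas : ∀ p, Measurable (c p)
  dmeas : ∀ p, Measurable (d p)
  cact : ∀ (σ : Equiv.Perm ℕ) (p : List ℕ) (x : RS a), c (p.map σ) (act σ x) = act σ (c p x)
  dact : ∀ (σ : Equiv.Perm ℕ) (p : List ℕ) (z : RS b), d (p.map σ) (act σ z) = act σ (d p z)

/-- The structures with an expansion, for some parameters, in `V`. -/
def PExp {a b : ℕ → ℕ} (c : List ℕ → RS a → RS b) (d : List ℕ → RS b → RS a)
    (V : RS b → Prop) (x : RS a) : Prop := ∃ p, V (c p x) ∧ d p (c p x) = x

/-! ### Marks -/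

/-- The marks of the points of a tuple. -/
def marks (p : List ℕ) : ℕ → ℕ → Bool := fun n u => decide (p[n]? = some u)

/-- The even predicates. -/
def ev (W : ℕ → ℕ → Bool) : ℕ → ℕ → Bool := fun n u => W (2 * n) u

/-- The odd predicates. -/
def od (W : ℕ → ℕ → Bool) : ℕ → ℕ → Bool := fun n u => W (2 * n + 1) u

/-- Both together. -/
def mk2 (U U' : ℕ → ℕ → Bool) : ℕ → ℕ → Bool := fun n u =>
  if n % 2 = 0 then U (n / 2) u else U' (n / 2) u

theorem ev_mk2 (U U' : ℕ → ℕ → Bool) : ev (mk2 U U') = U := by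
  funext n u
  unfold ev mk2
  rw [if_pos (by omega)]
  congr 1
  omega

theorem od_mk2 (U U' : ℕ → ℕ → Bool) : od (mk2 U U') = U' := by
  funext n u
  unfold od mk2
  rw [if_neg (by omega)]
  congr 1
  omega

theorem ev_cont : Continuous ev :=
  continuous_pi fun n => continuous_apply (2 * n)

theorem od_cont : Continuous od :=
  continuous_pi fun n => continuous_apply (2 * n + 1)

theorem marks_inj {p p' : List ℕ} (h : marks p = marks p') : p = p' := by
  apply List.ext_getElem?
  intro n
  have h1 : ∀ u, p[n]? = some u ↔ p'[n]? = some u := by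
    intro u
    have := congrFun (congrFun h n) u
    unfold marks at this
    exact decide_eq_decide.1 this
  cases h2 : p[n]? with
  | none =>
    cases h3 : p'[n]? with
    | none => rfl
    | some u =>
      rw [(h1 u).2 h3] at h2
      exact absurd h2 (by simp)
  | some u => exact ((h1 u).1 h2).symm

theorem marks_act (σ : Equiv.Perm ℕ) (p : List ℕ) (n u : ℕ) :
    marks (p.map σ) n (σ u) = marks p n u := by
  unfold marks
  refine decide_eq_decide.2 ?_
  rw [List.getElem?_map]
  cases p[n]? with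
  | none => simp
  | some v => simp

theorem marks_map {W W' : ℕ → ℕ → Bool} {p : List ℕ} {σ : Equiv.Perm ℕ}
    (h : ∀ i u, W' i (σ u) = W i u) (hp : od W = marks p) : od W' = marks (p.map σ) := by
  funext n u
  have h1 := h (2 * n + 1) (σ.symm u)
  rw [σ.apply_symm_apply] at h1
  have h2 : od W n (σ.symm u) = marks p n (σ.symm u) := by rw [hp]
  have h3 := marks_act σ p n (σ.symm u)
  rw [σ.apply_symm_apply] at h3
  show W' (2 * n + 1) u = _
  rw [h1, h3]
  exact h2

theorem map_id_of {g : ℕ → ℕ} {p : List ℕ} (h : ∀ u, g u = u) : p.map g = p := by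
  have : g = id := funext h
  rw [this, List.map_id]

theorem map_fix {σ : Equiv.Perm ℕ} {p : List ℕ} (h : ∀ u ∈ p, σ u = u) : p.map σ = p := by
  conv_rhs => rw [← List.map_id p]
  exact List.map_congr_left h

/-! ### Descriptive set theory -/

theorem polish_of' {X : Type} [TopologicalSpace X] [h1 : SecondCountableTopology X]
    [h2 : TopologicalSpace.IsCompletelyMetrizableSpace X] : PolishSpace X := { h1, h2 with }

theorem an_inter {X : Type} [TopologicalSpace X] [T2Space X] {s t : Set X}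
    (hs : AnalyticSet s) (ht : AnalyticSet t) : AnalyticSet (s ∩ t) :=
  Pool.Agent.TH783.TR.analytic_inter hs ht

/-- A closed countable cover of the Cantor space has a member which contains a copy of the Cantor
space. -/
theorem cantor_sub {ι : Type} [Countable ι] (C : ι → Set (ℕ → Bool)) (hC : ∀ i, IsClosed (C i))
    (hU : ⋃ i, C i = univ) : ∃ i, ∃ h : (ℕ → Bool) → (ℕ → Bool), Continuous h ∧
      Function.Injective h ∧ ∀ e, h e ∈ C i := by
  obtain ⟨i, z, hz⟩ := nonempty_interior_of_iUnion_of_closed hC hU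
  obtain ⟨I, u, h1, h2⟩ := isOpen_pi_iff.1 isOpen_interior z hz
  set L : ℕ := I.sup id + 1 with hL
  refine ⟨i, fun e n => if n < L then z n else e (n - L), ?_, ?_, ?_⟩
  · refine continuous_pi fun n => ?_
    by_cases hn : n < L
    · simp only [hn, if_true]
      exact continuous_const
    · simp only [hn, if_false]
      exact continuous_apply _
  · intro e e' h
    funext n
    have := congrFun h (n + L)
    simpa using this
  · intro e
    apply interior_subset
    apply h2
    intro j hj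
    have h3 : j ≤ I.sup id := Finset.le_sup (f := id) hj
    have h4 : j < L := by omega
    simp only [h4, if_true]
    exact (h1 j hj).2

/-- A Borel map on the Cantor space is continuous on a copy of the Cantor space. -/
theorem cantor_cont {Y : Type} [TopologicalSpace Y] [SecondCountableTopology Y]
    [MeasurableSpace Y] [OpensMeasurableSpace Y] (f : (ℕ → Bool) → Y) (hf : Measurable f) :
    ∃ h : (ℕ → Bool) → (ℕ → Bool), Continuous h ∧ Function.Injective h ∧
      Continuous fun e => f (h e) := by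
  have hP : PolishSpace (ℕ → Bool) := polish_of'
  obtain ⟨τ', hle, hfc, hτ'⟩ := hf.exists_continuous
  obtain ⟨h, -, h1, h2⟩ := @IsClosed.exists_nat_bool_injection_of_not_countable (ℕ → Bool) τ' hτ'
    univ (@isClosed_univ _ τ') (by
      intro hc
      exact Pool.Agent.H899R2.VP.not_countable_cantor (Set.countable_univ_iff.1 hc))
  refine ⟨h, ?_, h2, ?_⟩
  · exact continuous_le_rng hle h1
  · exact @Continuous.comp (ℕ → Bool) (ℕ → Bool) Y Pi.topologicalSpace τ' _ h f hfc h1

section main

variable {a b : ℕ → ℕ} {c : List ℕ → RS a → RS b} {d : List ℕ → RS b → RS a} {V : RS b → Prop}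

theorem phi_an (hcd : PCanon c d) (hV : Coan V) (p : List ℕ) :
    AnalyticSet {x : RS a | ¬ (V (c p x) ∧ d p (c p x) = x)} := by
  have b5 : PolishSpace (RS a) := polish_of'
  have h1 : {x : RS a | ¬ (V (c p x) ∧ d p (c p x) = x)} =
      ⋃ k : Bool, (if k then (c p) ⁻¹' {z | ¬ V z} else {x | ¬ d p (c p x) = x}) := by
    ext x
    simp only [mem_iUnion, Bool.exists_bool, Bool.false_eq_true, if_false, if_true,
      mem_ofPred_eq, mem_preimage]
    tauto
  rw [h1]
  refine AnalyticSet.iUnion ?_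
  intro k
  cases k
  · rw [if_neg (by simp)]
    refine MeasurableSet.analyticSet ?_
    exact (measurableSet_eq_fun ((hcd.dmeas p).comp (hcd.meas p)) measurable_id).compl
  · rw [if_pos rfl]
    exact exk_pre hV (hcd.meas p)

theorem phi_inv (hcd : PCanon c d) (hI : Inv V) {x : RS a} {p : List ℕ} (σ : Equiv.Perm ℕ)
    (h : V (c p x) ∧ d p (c p x) = x) :
    V (c (p.map σ) (act σ x)) ∧ d (p.map σ) (c (p.map σ) (act σ x)) = act σ x := by
  constructor
  · rw [hcd.cact]
    exact hI _ _ (exk_riso σ (c p x)) h.1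
  · rw [hcd.cact, hcd.dact, h.2]

theorem act_act (σ τ : Equiv.Perm ℕ) (x : RS a) : act σ (act τ x) = act (σ * τ) x := rfl

theorem act_one (x : RS a) : act 1 x = x := rfl

theorem pexp_coan (hcd : PCanon c d) (hV : Coan V) : Coan (PExp c d V) := by
  unfold Coan PExp
  have h1 : {x : RS a | ¬ ∃ p, V (c p x) ∧ d p (c p x) = x} =
      ⋂ p, {x : RS a | ¬ (V (c p x) ∧ d p (c p x) = x)} := by
    ext x
    simp
  rw [h1]
  exact AnalyticSet.iInter fun p => phi_an hcd hV p

theorem pexp_inv (hcd : PCanon c d) (hI : Inv V) : Inv (PExp c d V) := by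
  rintro x y hxy ⟨p, hp⟩
  obtain ⟨σ, rfl⟩ := exk_act hxy
  exact ⟨p.map σ, phi_inv hcd hI σ hp⟩

theorem uiso_refl (y : US a) : UIso y y := ⟨1, fun _ _ => rfl, fun _ _ => rfl⟩

theorem uiso_symm {x y : US a} (h : UIso x y) : UIso y x := by
  obtain ⟨σ, h1, h2⟩ := h
  refine ⟨σ⁻¹, fun i v => ?_, fun i u => ?_⟩
  · rw [← h1 i (⇑σ⁻¹ ∘ v)]
    have e : (⇑σ ∘ ⇑σ⁻¹ ∘ v) = v := by
      funext j
      simp
    rw [e]
  · rw [← h2 i (σ⁻¹ u)]
    simp

theorem uiso_trans {x y z : US a} (h : UIso x y) (h' : UIso y z) : UIso x z := by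
  obtain ⟨σ, h1, h2⟩ := h
  obtain ⟨τ, h3, h4⟩ := h'
  refine ⟨τ * σ, fun i v => ?_, fun i u => ?_⟩
  · rw [← h1, ← h3]
    rfl
  · rw [← h2, ← h4]
    rfl

end main

section thm

variable {a b : ℕ → ℕ} {c : List ℕ → RS a → RS b} {d : List ℕ → RS b → RS a} {V : RS b → Prop}

/-- The code of a structure with parameters. -/
def cod (y : US a) (p : List ℕ) : US a := (y.1, mk2 y.2 (marks p))

/-- Invariant Borel uniformisation of the parameters: there is an invariant Borel set of codes of
pairs `(y, p)` with `y ∈ B` such that the expansion of `y` by `p` is in `V`, and every `y ∈ B`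
occurs. -/
theorem uniform (hcd : PCanon c d) (hV : Coan V) (hI : Inv V) (B : Set (US a))
    (hB : MeasurableSet B) (hinv : ∀ x y, UIso x y → (x ∈ B ↔ y ∈ B))
    (hBV : ∀ y ∈ B, PExp c d V y.1) : ∃ D : Set (US a), MeasurableSet D ∧
      (∀ x y, UIso x y → (x ∈ D ↔ y ∈ D)) ∧
      (∀ w ∈ D, ∀ p, od w.2 = marks p → (w.1, ev w.2) ∈ B →
        V (c p w.1) ∧ d p (c p w.1) = w.1) ∧
      ∀ y ∈ B, ∃ p, cod y p ∈ D ∧ V (c p y.1) ∧ d p (c p y.1) = y.1 := by
  have b1 : BorelSpace ((i : ℕ) → (Fin (a i) → ℕ) → Bool) := inferInstance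
  have b2 : BorelSpace (ℕ → ℕ → Bool) := inferInstance
  have s1 : SecondCountableTopology (US a) := inferInstance
  have b3 : BorelSpace (US a) := inferInstance
  have b5 : PolishSpace (US a) := polish_of'
  -- Novikov
  let A : ℕ → Set (US a) := fun n => B ∩
    (fun y : US a => y.1) ⁻¹' {x : RS a | ¬ (V (c (Denumerable.ofNat (List ℕ) n) x) ∧
      d (Denumerable.ofNat (List ℕ) n) (c (Denumerable.ofNat (List ℕ) n) x) = x)}
  have hA : ∀ n, AnalyticSet (A n) := fun n =>
    an_inter hB.analyticSet ((phi_an hcd hV _).preimage continuous_fst)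
  have hA0 : ⋂ n, A n = ∅ := by
    rw [eq_empty_iff_forall_notMem]
    intro y hy
    rw [mem_iInter] at hy
    obtain ⟨p, hp⟩ := hBV y (hy 0).1
    have h1 := (hy (Encodable.encode p)).2
    simp only [Denumerable.ofNat_encode] at h1
    exact h1 hp
  obtain ⟨E, hE1, hE2, hE3⟩ := novikov A hA hA0
  -- the good codes
  let D0 : Set (US a) := {w | ∃ p : List ℕ, od w.2 = marks p ∧
    ((w.1, ev w.2) : US a) ∈ B \ E (Encodable.encode p)}
  have hev : Continuous fun w : US a => ((w.1, ev w.2) : US a) :=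
    continuous_fst.prodMk (ev_cont.comp continuous_snd)
  have hod : ∀ p, MeasurableSet {w : US a | od w.2 = marks p} := fun p =>
    (isClosed_eq (od_cont.comp continuous_snd) continuous_const).measurableSet
  have hD0 : MeasurableSet D0 := by
    have h1 : D0 = ⋃ p : List ℕ, ({w : US a | od w.2 = marks p} ∩
        (fun w : US a => ((w.1, ev w.2) : US a)) ⁻¹' (B \ E (Encodable.encode p))) := by
      ext w
      rw [mem_iUnion]
      rfl
    rw [h1]
    exact MeasurableSet.iUnion fun p => (hod p).inter (hev.measurable (hB.diff (hE1 _)))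
  let A1 : Set (US a) := {w | ∃ x ∈ D0, UIso x w}
  let A2 : Set (US a) := {w | ∃ p : List ℕ, od w.2 = marks p ∧ ((w.1, ev w.2) : US a) ∈ B ∧
    ¬ (V (c p w.1) ∧ d p (c p w.1) = w.1)}
  have hA1 : AnalyticSet A1 := t_SAT a D0 hD0.analyticSet
  have hA2 : AnalyticSet A2 := by
    have h1 : A2 = ⋃ p : List ℕ, ({w : US a | od w.2 = marks p} ∩
        ((fun w : US a => ((w.1, ev w.2) : US a)) ⁻¹' B ∩
          (fun w : US a => w.1) ⁻¹' {x : RS a | ¬ (V (c p x) ∧ d p (c p x) = x)})) := by
      ext w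
      rw [mem_iUnion]
      rfl
    rw [h1]
    refine AnalyticSet.iUnion fun p => ?_
    exact an_inter (hod p).analyticSet (an_inter (hev.measurable hB).analyticSet
      ((phi_an hcd hV p).preimage continuous_fst))
  have hiA1 : ∀ x y, UIso x y → x ∈ A1 → y ∈ A1 := by
    rintro x y hxy ⟨w, hw, hwx⟩
    exact ⟨w, hw, uiso_trans hwx hxy⟩
  have hev_iso : ∀ x y : US a, UIso x y → UIso ((x.1, ev x.2) : US a) (y.1, ev y.2) := by
    rintro x y ⟨σ, h1, h2⟩
    exact ⟨σ, h1, fun i u => h2 (2 * i) u⟩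
  have hiA2 : ∀ x y, UIso x y → x ∈ A2 → y ∈ A2 := by
    rintro x y hxy ⟨p, h1, h2, h3⟩
    have h4 := hev_iso x y hxy
    rw [exc_iso_iff] at hxy
    obtain ⟨σ, h5, h6⟩ := hxy
    refine ⟨p.map σ, marks_map h6 h1, (hinv _ _ h4).1 h2, fun h7 => h3 ?_⟩
    have h8 := phi_inv hcd hI σ⁻¹ h7
    have e1 : (p.map σ).map (σ⁻¹ : Equiv.Perm ℕ) = p := by
      rw [List.map_map]
      refine map_id_of ?_
      intro u
      simp
    have e2 : act σ⁻¹ y.1 = x.1 := by
      rw [h5, act_act]
      simp [act_one]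
    rw [e1, e2] at h8
    exact h8
  have hdis : Disjoint A1 A2 := by
    rw [Set.disjoint_left]
    rintro y ⟨x, ⟨p, h1, h2, h3⟩, hxy⟩ ⟨p', h4, -, h5⟩
    rw [exc_iso_iff] at hxy
    obtain ⟨σ, h6, h7⟩ := hxy
    have h8 := marks_map h7 h1
    have h9 : p.map σ = p' := marks_inj (h8.symm.trans h4)
    apply h5
    rw [← h9, h6]
    refine phi_inv hcd hI σ ?_
    by_contra hc
    apply h3
    apply hE2
    refine ⟨h2, ?_⟩
    show ¬ (V (c (Denumerable.ofNat (List ℕ) (Encodable.encode p)) x.1) ∧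
      d (Denumerable.ofNat (List ℕ) (Encodable.encode p))
        (c (Denumerable.ofNat (List ℕ) (Encodable.encode p)) x.1) = x.1)
    rw [Denumerable.ofNat_encode]
    exact hc
  obtain ⟨D, hD1, hD2, hD3, hD4⟩ := t_PSEP t_SAT a A1 A2 hA1 hA2 hiA1 hiA2 hdis
  refine ⟨D, hD1, hD2, ?_, ?_⟩
  · intro w hw p h1 h2
    by_contra hc
    exact Set.disjoint_left.1 hD4 hw ⟨p, h1, h2, hc⟩
  · intro y hy
    have h1 : ∃ n, y ∉ E n := by
      by_contra hc
      push Not at hc
      have : y ∈ ⋂ n, E n := mem_iInter.2 hc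
      rw [hE3] at this
      exact this
    obtain ⟨n, hn⟩ := h1
    refine ⟨Denumerable.ofNat (List ℕ) n, hD3 ⟨_, ⟨Denumerable.ofNat (List ℕ) n, od_mk2 _ _, ?_⟩,
      uiso_refl _⟩, ?_⟩
    · show ((y.1, ev (mk2 y.2 (marks _))) : US a) ∈ _
      rw [ev_mk2, Denumerable.encode_ofNat]
      exact ⟨hy, hn⟩
    · by_contra hc
      exact hn (hE2 n ⟨hy, hc⟩)

/-- Vaught's conjecture is preserved by canonical expansions with finitely many parameters. -/
theorem pexp_vcu (hcd : PCanon c d) (hVC : VCu V) (hV : Coan V) (hI : Inv V) :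
    VCu (PExp c d V) := by
  intro B hB hinv hBV
  have b1 : BorelSpace ((i : ℕ) → (Fin (a i) → ℕ) → Bool) := inferInstance
  have b2 : BorelSpace (ℕ → ℕ → Bool) := inferInstance
  have s1 : SecondCountableTopology (US a) := inferInstance
  have b3 : BorelSpace (US a) := inferInstance
  have b1' : BorelSpace ((i : ℕ) → (Fin (b i) → ℕ) → Bool) := inferInstance
  have s1' : SecondCountableTopology (US b) := inferInstance
  have b3' : BorelSpace (US b) := inferInstance
  obtain ⟨D, hD1, hD2, hD3, hD4⟩ := uniform hcd hV hI B hB hinv hBV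
  let B3 : Set (US b) := {z | ∃ p : List ℕ, od z.2 = marks p ∧
    ((d p z.1, ev z.2) : US a) ∈ B ∧ ((d p z.1, z.2) : US a) ∈ D ∧ z.1 = c p (d p z.1)}
  have hm3 : MeasurableSet B3 := by
    have h1 : B3 = ⋃ p : List ℕ, ({z : US b | od z.2 = marks p} ∩
        ((fun z : US b => ((d p z.1, ev z.2) : US a)) ⁻¹' B ∩
        ((fun z : US b => ((d p z.1, z.2) : US a)) ⁻¹' D ∩
          {z : US b | z.1 = c p (d p z.1)}))) := by
      ext w
      rw [mem_iUnion]
      rfl
    rw [h1]
    refine MeasurableSet.iUnion fun p => ?_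
    have hdp : Measurable (d p) := hcd.dmeas p
    refine ((isClosed_eq (od_cont.comp continuous_snd) continuous_const).measurableSet).inter
      (MeasurableSet.inter ?_ (MeasurableSet.inter ?_ ?_))
    · exact ((hdp.comp measurable_fst).prodMk (ev_cont.measurable.comp measurable_snd)) hB
    · exact ((hdp.comp measurable_fst).prodMk measurable_snd) hD1
    · exact measurableSet_eq_fun measurable_fst
        ((hcd.meas p).comp (hdp.comp measurable_fst))
  have hi3 : ∀ x y : US b, UIso x y → x ∈ B3 → y ∈ B3 := by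
    rintro x y hxy ⟨p, h1, h2, h3, h4⟩
    rw [exc_iso_iff] at hxy
    obtain ⟨σ, h5, h6⟩ := hxy
    have e1 : d (p.map σ) y.1 = act σ (d p x.1) := by rw [h5, hcd.dact]
    refine ⟨p.map σ, marks_map h6 h1, ?_, ?_, ?_⟩
    · refine (hinv _ _ ?_).1 h2
      rw [exc_iso_iff]
      exact ⟨σ, e1, fun i u => h6 (2 * i) u⟩
    · refine (hD2 _ _ ?_).1 h3
      rw [exc_iso_iff]
      exact ⟨σ, e1, h6⟩
    · rw [e1, hcd.cact, ← h4, h5]
  have hV3 : ∀ z ∈ B3, V z.1 := by
    rintro z ⟨p, h1, h2, h3, h4⟩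
    have h5 := (hD3 _ h3 p h1 h2).1
    rw [h4]
    exact h5
  rcases hVC B3 hm3 (fun x y h => ⟨hi3 x y h, hi3 y x (uiso_symm h)⟩) hV3 with
    ⟨f, hf⟩ | ⟨g, hg, hgB, hgi⟩
  · -- countably many types
    left
    classical
    refine ⟨fun n => if h : ∃ p, od (f n).2 = marks p then (d h.choose (f n).1, ev (f n).2) else
      (fun _ _ => false, fun _ _ => false), fun y hy => ?_⟩
    obtain ⟨p, h1, h2, h3⟩ := hD4 y hy
    have hz : ((c p y.1, mk2 y.2 (marks p)) : US b) ∈ B3 := by
      refine ⟨p, od_mk2 _ _, ?_, ?_, ?_⟩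
      · show ((d p (c p y.1), ev (mk2 y.2 (marks p))) : US a) ∈ B
        rw [h3, ev_mk2]
        exact hy
      · show ((d p (c p y.1), mk2 y.2 (marks p)) : US a) ∈ D
        rw [h3]
        exact h1
      · show c p y.1 = c p (d p (c p y.1))
        rw [h3]
    obtain ⟨n, hn⟩ := hf _ hz
    refine ⟨n, ?_⟩
    have hn' := uiso_symm hn
    rw [exc_iso_iff] at hn hn'
    obtain ⟨σ, h4, h5⟩ := hn
    obtain ⟨τ, h6, h7⟩ := hn'
    have hex : ∃ p, od (f n).2 = marks p := ⟨_, marks_map h7 (od_mk2 _ _)⟩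
    simp only [dif_pos hex]
    rw [exc_iso_iff]
    have e1 : hex.choose.map σ = p := by
      apply marks_inj
      rw [← marks_map h5 hex.choose_spec]
      exact od_mk2 _ _
    refine ⟨σ, ?_, ?_⟩
    · show y.1 = act σ (d hex.choose (f n).1)
      rw [← hcd.dact, e1]
      have h8 : c p y.1 = act σ (f n).1 := h4
      rw [← h8, h3]
    · intro i u
      have h8 : mk2 y.2 (marks p) (2 * i) (σ u) = (f n).2 (2 * i) u := h5 (2 * i) u
      have h9 : ev (mk2 y.2 (marks p)) i (σ u) = y.2 i (σ u) := by rw [ev_mk2]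
      rw [← h9]
      exact h8
  · -- a perfect set
    right
    by_contra few
    obtain ⟨p, h, hh1, hh2, hh3⟩ := cantor_sub
      (fun p : List ℕ => {e | od (g e).2 = marks p})
      (fun p => isClosed_eq (od_cont.comp (continuous_snd.comp hg)) continuous_const) (by
        rw [eq_univ_iff_forall]
        intro e
        obtain ⟨p, hp, -⟩ := hgB e
        exact mem_iUnion.2 ⟨p, hp⟩)
    have hym : Measurable fun e : ℕ → Bool => ((d p (g (h e)).1, ev (g (h e)).2) : US a) :=
      ((hcd.dmeas p).comp (continuous_fst.comp (hg.comp hh1)).measurable).prodMk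
        (ev_cont.comp (continuous_snd.comp (hg.comp hh1))).measurable
    obtain ⟨r, hr1, hr2, hr3⟩ := cantor_cont _ hym
    obtain ⟨h, hh1, hh2, hh3, hh4⟩ : ∃ h : (ℕ → Bool) → (ℕ → Bool), Continuous h ∧
        Function.Injective h ∧ (∀ e, h e ∈ {e | od (g e).2 = marks p}) ∧
        Continuous fun e : ℕ → Bool => ((d p (g (h e)).1, ev (g (h e)).2) : US a) :=
      ⟨fun e => h (r e), hh1.comp hr1, hh2.comp hr2, fun e => hh3 (r e), hr3⟩
    let y : (ℕ → Bool) → US a := fun e => (d p (g (h e)).1, ev (g (h e)).2)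
    have hyc : Continuous y := hh4
    have hp : ∀ e, (y e) ∈ B ∧ (g (h e)).1 = c p (d p (g (h e)).1) := by
      intro e
      obtain ⟨p', h1, h2, -, h3⟩ := hgB (h e)
      have h4 : p' = p := marks_inj (h1.symm.trans (hh3 e))
      subst h4
      exact ⟨h2, h3⟩
    have hcm := t_CMB a
    let K : Set (Pool.Agent.H899R2.VP.St (a1 a)) :=
      {M | M.1 = (fun _ _ => false) ∧ ((evn M.2, odd M.2) : US a) ∈ B}
    have hK : MeasurableSet K := by
      refine MeasurableSet.inter ?_ ?_
      · exact (isClosed_eq continuous_fst continuous_const).measurableSet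
      · have h1 : Continuous fun M : Pool.Agent.H899R2.VP.St (a1 a) =>
            ((evn M.2, odd M.2) : US a) :=
          (hcm.2.2.1.comp continuous_snd).prodMk (hcm.2.2.2.1.comp continuous_snd)
        exact h1.measurable hB
    have hcont : Continuous fun w : US a => Pool.Agent.H533R2.VO.lift (cmb w.1 w.2) :=
      continuous_const.prodMk hcm.2.2.2.2.1
    refine Pool.Agent.H899R2.VP.few_base hK ?_ (F := {u | u ∈ p}) (List.finite_toSet p)
      (fun e => Pool.Agent.H533R2.VO.lift (cmb (y e).1 (y e).2)) (hcont.comp hyc) ?_ ?_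
    · rintro ⟨g', hg1, hg2, hg3⟩
      apply few
      refine ⟨fun e => (evn (g' e).2, odd (g' e).2), ?_, fun e => (hg2 e).2, ?_⟩
      · exact (hcm.2.2.1.comp (continuous_snd.comp hg1)).prodMk
          (hcm.2.2.2.1.comp (continuous_snd.comp hg1))
      · intro e e' hee
        apply hg3
        rw [← hcm.2.2.2.2.2] at hee
        simp only [hcm.2.1] at hee
        have h1 : ∀ e, g' e = Pool.Agent.H533R2.VO.lift (g' e).2 := fun e =>
          Prod.ext (hg2 e).1 rfl
        rw [h1 e, h1 e']
        exact Pool.Agent.TH783.TR.riso_iff.1 hee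
    · intro e
      refine ⟨rfl, ?_⟩
      show ((evn (cmb (y e).1 (y e).2), odd (cmb (y e).1 (y e).2)) : US a) ∈ B
      rw [(hcm.1 _ _).1, (hcm.1 _ _).2]
      exact (hp e).1
    · intro e e' hiso
      apply hh2
      apply hgi
      obtain ⟨σ, h1, h2⟩ := hiso.exists_equiv
      rw [Pool.Agent.TH783.TR.lift_piso] at h2
      have hfix : ∀ u ∈ p, σ u = u := fun u hu => h1 (u, u) ⟨rfl, hu⟩
      have h3 : ∀ (i : ℕ) (t : Fin (a1 a i) → ℕ), cmb (y e').1 (y e').2 i (⇑σ ∘ t) =
          cmb (y e).1 (y e).2 i t := by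
        intro i t
        exact (h2.2 i (fun k => (t k, σ (t k))) fun k => rfl).symm
      have h4 : ∀ (i : ℕ) (v : Fin (a i) → ℕ), (y e').1 i (⇑σ ∘ v) = (y e).1 i v := by
        intro i v
        have e1 := congrFun (congrFun (hcm.1 (y e').1 (y e').2).1 i) (⇑σ ∘ v)
        have e2 := congrFun (congrFun (hcm.1 (y e).1 (y e).2).1 i) v
        rw [← e1, ← e2]
        exact h3 (2 * i) _
      have h5 : ∀ i u, (y e').2 i (σ u) = (y e).2 i u := by
        intro i u
        have e1 := congrFun (congrFun (hcm.1 (y e').1 (y e').2).2 i) (σ u)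
        have e2 := congrFun (congrFun (hcm.1 (y e).1 (y e).2).2 i) u
        rw [← e1, ← e2]
        exact h3 (2 * i + 1) _
      rw [exc_iso_iff]
      have h6 : (y e').1 = act σ (y e).1 := by
        funext i v
        have h7 := h4 i (⇑σ.symm ∘ v)
        have e1 : ⇑σ ∘ (⇑σ.symm ∘ v) = v := by
          funext j
          exact σ.apply_symm_apply (v j)
        rw [e1] at h7
        exact h7
      refine ⟨σ, ?_, ?_⟩
      · have h7 : d p (g (h e')).1 = act σ (d p (g (h e)).1) := h6
        rw [(hp e').2, h7]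
        have h8 : c p (act σ (d p (g (h e)).1)) = act σ (c p (d p (g (h e)).1)) := by
          have := hcd.cact σ p (d p (g (h e)).1)
          rwa [map_fix hfix] at this
        rw [h8, ← (hp e).2]
      · intro i u
        rcases Nat.even_or_odd' i with ⟨j, rfl | rfl⟩
        · exact h5 j u
        · have h7 : od (g (h e')).2 j (σ u) = marks p j (σ u) := by rw [hh3 e']
          have h8 : od (g (h e)).2 j u = marks p j u := by rw [hh3 e]
          have h9 := marks_act σ p j u
          rw [map_fix hfix] at h9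
          show od (g (h e')).2 j (σ u) = od (g (h e)).2 j u
          rw [h7, h8, h9]

end thm

end Pool.Agent.TH425.FF
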